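import Pool.Agent.H93.PF.Targets

/-!
# Power-free shifts: basic facts on the iterates, and on `Nx`, `la`, `na`
-/

set_option autoImplicit false

open MeasureTheory Filter Topology Finset

namespace Pool.Agent.H93.PF

section

variable {Y : Type} [MeasurableSpace Y] (T : Y ≃ᵐ Y)

theorem zp_zero (y : Y) : zp T 0 y = y := by simp [zp]

theorem zp_add (m n : ℤ) (y : Y) : zp T (m + n) y = zp T m (zp T n y) := by
  simp [zp, zpow_add]

theorem zp_one (y : Y) : zp T 1 y = T y := by simp [zp]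

theorem zp_natCast (n : ℕ) (y : Y) : zp T (n : ℤ) y = T^[n] y := by
  induction n with
  | zero => simp [zp_zero]
  | succ n ih =>
    rw [Function.iterate_succ_apply', ← ih, ← zp_one, ← zp_add]
    congr 1
    push_cast
    ring

theorem zp_succ (n : ℤ) (y : Y) : zp T (n + 1) y = zp T n (T y) := by
  rw [zp_add, zp_one]

theorem zp_neg_one (y : Y) : zp T (-1) y = T.symm y := by
  apply T.injective
  rw [← zp_one, ← zp_add]
  simp [zp_zero]

theorem zp_neg_natCast (n : ℕ) (y : Y) : zp T (-(n : ℤ)) y = T.symm^[n] y := by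
  induction n with
  | zero => simp [zp_zero]
  | succ n ih =>
    rw [Function.iterate_succ_apply', ← ih, ← zp_neg_one, ← zp_add]
    congr 1
    push_cast
    ring

theorem measurable_zp (n : ℤ) : Measurable (zp T n) := by
  rcases Int.eq_nat_or_neg n with ⟨k, rfl | rfl⟩
  · have : zp T (k : ℤ) = T^[k] := funext fun y => zp_natCast T k y
    rw [this]
    exact T.measurable.iterate k
  · have : zp T (-(k : ℤ)) = T.symm^[k] := funext fun y => zp_neg_natCast T k y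
    rw [this]
    exact T.symm.measurable.iterate k

theorem mp_zp (ν : Measure Y) (h : MeasurePreserving T ν ν) (n : ℤ) :
    MeasurePreserving (zp T n) ν ν := by
  rcases Int.eq_nat_or_neg n with ⟨k, rfl | rfl⟩
  · have : zp T (k : ℤ) = T^[k] := funext fun y => zp_natCast T k y
    rw [this]
    exact h.iterate k
  · have : zp T (-(k : ℤ)) = T.symm^[k] := funext fun y => zp_neg_natCast T k y
    rw [this]
    exact (h.symm T).iterate k

/-- the row ZPB -/
theorem pf_ZPB : T_ZPB := fun _ _ T =>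
  ⟨zp_zero T, zp_add T, zp_one T, zp_natCast T, measurable_zp T, fun ν h n => mp_zp T ν h n⟩

variable {T}

theorem mem_ob {S : Set Y} {y : Y} {n : ℤ} : n ∈ ob T S y ↔ zp T n y ∈ S := Iff.rfl

theorem mem_ob_zp {S : Set Y} {y : Y} {n s : ℤ} : n ∈ ob T S (zp T s y) ↔ n + s ∈ ob T S y := by
  rw [mem_ob, mem_ob, zp_add]

theorem Rc.shift {D : ℕ → Set Y} {y : Y} (h : Rc T D y) (s : ℤ) : Rc T D (zp T s y) := by
  intro k n
  obtain ⟨⟨j, hj, hj'⟩, _⟩ := h k (n + s.natAbs)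
  obtain ⟨_, ⟨i, hi, hi'⟩⟩ := h k (n + s.natAbs)
  refine ⟨⟨((j : ℤ) - s).toNat, by omega, ?_⟩, ⟨((i : ℤ) + s).toNat, by omega, ?_⟩⟩
  · rw [← zp_add]
    have : (((j : ℤ) - s).toNat : ℤ) + s = j := by omega
    rwa [this]
  · rw [← zp_add]
    have : -(((i : ℤ) + s).toNat : ℤ) + s = -(i : ℤ) := by omega
    rwa [this]

end

/-! ### `Nx` -/

theorem Nx.uniq {B : Set ℤ} {s : ℤ} {g g' : ℕ} (h : Nx B s g) (h' : Nx B s g') : g = g' := by
  obtain ⟨h1, h2, h3⟩ := h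
  obtain ⟨h1', h2', h3'⟩ := h'
  rcases lt_trichotomy g g' with hh | hh | hh
  · exact absurd h2 (h3' _ (by omega) (by omega))
  · exact hh
  · exact absurd h2' (h3 _ (by omega) (by omega))

/-- the last point of `B` up to `i` -/
theorem exists_last {B : Set ℤ} (h : ∀ i : ℤ, ∃ s ∈ B, s ≤ i) (i : ℤ) :
    ∃ s ∈ B, s ≤ i ∧ ∀ t ∈ B, t ≤ i → t ≤ s := by
  classical
  obtain ⟨s, hs, hsi⟩ := h i
  obtain ⟨u, ⟨h1, h2⟩, h3⟩ := Int.exists_greatest_of_bdd (P := fun t => t ∈ B ∧ t ≤ i)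
    ⟨i, fun z hz => hz.2⟩ ⟨s, hs, hsi⟩
  exact ⟨u, h1, h2, fun t ht ht' => h3 t ⟨ht, ht'⟩⟩

/-- every place is in a gap -/
theorem exists_gap {B : Set ℤ} (h : ∀ i : ℤ, ∃ s ∈ B, s ≤ i)
    (h' : ∀ s ∈ B, ∃ g : ℕ, Nx B s g) (i : ℤ) :
    ∃ s ∈ B, ∃ g : ℕ, Nx B s g ∧ s ≤ i ∧ i < s + g := by
  obtain ⟨s, hs, hsi, hm⟩ := exists_last h i
  obtain ⟨g, hg⟩ := h' s hs
  refine ⟨s, hs, g, hg, hsi, ?_⟩
  by_contra hc
  have := hm _ hg.2.1 (by omega)
  have := hg.1
  omega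

end Pool.Agent.H93.PF
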