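import Pool.Agent.H93.PF.PJA

set_option autoImplicit false

open MeasureTheory Filter Topology Finset

namespace Pool.Agent.H93.PF

theorem pf_BKT (hLNB : T_LNB) : T_BKT := by
  intro Y _ T L D hM y _ k hbelow A r hA hN
  set N := 16 ^ (k + 1) * L with hNdef
  refine ⟨?_, ?_⟩
  · by_contra hc
    push Not at hc
    refine hM.ret k (zp T A y) hA r hN.1 hc ?_
    have := hN.2.1
    rw [mem_ob, add_comm A (r : ℤ), zp_add] at this
    exact this
  · intro x hx hx'
    obtain ⟨-, -, -, h2⟩ := hLNB Y T (D (k + 1)) y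
    obtain ⟨a1, a2⟩ := h2 A r hA hN x hx hx'
    obtain ⟨-, -, h3, -⟩ := hLNB Y T (Bk T L D k) (zp T x y)
    have hex : ∃ b : ℕ, 1 ≤ b ∧ zp T (-(b : ℤ)) (zp T x y) ∈ Bk T L D k := by
      obtain ⟨s, hs, hs'⟩ := hbelow (x - 1)
      refine ⟨(x - s).toNat, by omega, ?_⟩
      rw [← zp_add]
      have : -((x - s).toNat : ℤ) + x = s := by omega
      rw [this]; exact hs
    obtain ⟨p1, p2, p3⟩ := h3 hex
    set p := pa T (Bk T L D k) (zp T x y) with hp
    have p2' : x - (p : ℤ) ∈ ob T (Bk T L D k) y := by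
      rw [mem_ob, show x - (p : ℤ) = -(p : ℤ) + x by ring, zp_add]; exact p2
    have p3' : ∀ x' : ℤ, x - p < x' → x' < x → x' ∉ ob T (Bk T L D k) y := by
      intro x' h4 h5 h6
      refine p3 (x - x').toNat (by omega) (by omega) ?_
      rw [← zp_add]
      have : -((x - x').toNat : ℤ) + x = x' := by omega
      rw [this]; exact h6
    have hunf : x ∈ ob T (Bk T L D (k + 1)) y ↔ x ∈ ob T (Bk T L D k) y ∧
        ∃ i : ℕ, i * N ≤ la T (D (k + 1)) (zp T x y) ∧
          la T (D (k + 1)) (zp T x y) < p + i * N ∧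
          (i + 1) * N ≤ la T (D (k + 1)) (zp T x y) + na T (D (k + 1)) (zp T x y) := Iff.rfl
    rw [hunf]
    refine and_congr_right fun _ => exists_congr fun i => ?_
    constructor
    · rintro ⟨q1, q2, q3⟩
      refine ⟨by omega, by omega, ?_⟩
      intro x' h4 h5
      exact p3' x' (by omega) h5
    · rintro ⟨q1, q2, q3⟩
      refine ⟨by omega, ?_, by omega⟩
      by_contra hc
      exact q3 (x - p) (by omega) (by omega) p2'

end Pool.Agent.H93.PF
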