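import Pool.Agent.H93.PF.TargetsD

set_option autoImplicit false

open MeasureTheory Filter Topology Finset

namespace Pool.Agent.H93.PF

/-- a finite set which is not larger than the number of words of length `N` over `q` letters can
be coded by such words -/
theorem exists_code {α : Type} [Finite α] (F : Set α) (N q : ℕ) (hq : 0 < q)
    (h : F.ncard ≤ q ^ N) :
    ∃ f : α → ℕ → ℕ, (∀ w i, f w i < q) ∧
      ∀ w ∈ F, ∀ w' ∈ F, (∀ i < N, f w i = f w' i) → w = w' := by
  classical
  have hfin : Finite F := Subtype.finite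
  have : Fintype F := Fintype.ofFinite F
  have hcard : Fintype.card F ≤ Fintype.card (Fin N → Fin q) := by
    rw [Fintype.card_fun, Fintype.card_fin, Fintype.card_fin]
    rwa [← Nat.card_eq_fintype_card, Nat.card_coe_set_eq]
  obtain ⟨e⟩ := Function.Embedding.nonempty_of_card_le hcard
  refine ⟨fun w i => if h : w ∈ F ∧ i < N then (e ⟨w, h.1⟩ ⟨i, h.2⟩ : ℕ) else 0, ?_, ?_⟩
  · intro w i
    by_cases hw : w ∈ F ∧ i < N
    · simp only [hw, and_self, dite_true]
      exact (e ⟨w, hw.1⟩ ⟨i, hw.2⟩).2
    · simp only [hw, dite_false]; exact hq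
  · intro w hw w' hw' he
    have : e ⟨w, hw⟩ = e ⟨w', hw'⟩ := by
      funext i
      have h1 := he i i.2
      simp only [hw, hw', i.2, and_self, dite_true] at h1
      exact Fin.ext h1
    have := e.injective this
    simpa using this

theorem pf_COD : T_COD := by
  intro L q η K π S hL hη hq hfib
  have hq0 : 0 < q := by
    have : (0 : ℝ) < q := (Real.exp_pos _).trans_le hq
    exact_mod_cast this
  have key : ∀ j r : ℕ, ∃ f : (Fin r → Fin (K (j + 1))) → ℕ → ℕ, (∀ w i, f w i < q) ∧
      ∀ w ∈ S j r, ∀ w' ∈ S j r, (∀ i, π j (w i) = π j (w' i)) →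
        (∀ i, i * gg L (j + 1) < r → f w i = f w' i) → w = w' := by
    intro j r
    set G := gg L (j + 1) with hG
    have hG' : G = 2 * 16 ^ (j + 1) * L := rfl
    have hG0 : 0 < G := by rw [hG']; positivity
    set N := (r + G - 1) / G with hN
    have hiN : ∀ i, i < N ↔ i * G < r := by
      intro i
      rw [hN, Nat.lt_iff_add_one_le, Nat.le_div_iff_mul_le hG0]
      have : (i + 1) * G = i * G + G := by ring
      omega
    have hNG : r ≤ N * G := by
      by_contra hc
      push Not at hc
      exact absurd ((hiN N).2 hc) (lt_irrefl N)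
    have hpow : Real.exp (η / (2 * 16 ^ (j + 1)) * r) ≤ (q : ℝ) ^ N := by
      calc Real.exp (η / (2 * 16 ^ (j + 1)) * r) ≤ Real.exp (η * L * N) := by
            refine Real.exp_le_exp.2 ?_
            have h1 : (r : ℝ) ≤ N * (2 * 16 ^ (j + 1) * L) := by
              have : ((r : ℕ) : ℝ) ≤ ((N * G : ℕ) : ℝ) := by exact_mod_cast hNG
              rw [hG'] at this
              push_cast at this
              exact this
            have h2 : 0 ≤ η / (2 * 16 ^ (j + 1)) := by positivity
            calc η / (2 * 16 ^ (j + 1)) * r ≤ η / (2 * 16 ^ (j + 1)) * (N * (2 * 16 ^ (j + 1) * L)) :=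
                  mul_le_mul_of_nonneg_left h1 h2
              _ = η * L * N := by field_simp
        _ = Real.exp (η * L) ^ N := by rw [← Real.exp_nat_mul]; ring_nf
        _ ≤ (q : ℝ) ^ N := pow_le_pow_left₀ (Real.exp_pos _).le hq N
    have hcode : ∀ v : Fin r → Fin (K j), ∃ f : (Fin r → Fin (K (j + 1))) → ℕ → ℕ,
        (∀ w i, f w i < q) ∧ ∀ w ∈ {w ∈ S j r | ∀ i, π j (w i) = v i},
          ∀ w' ∈ {w ∈ S j r | ∀ i, π j (w i) = v i}, (∀ i < N, f w i = f w' i) → w = w' := by
      intro v
      refine exists_code _ N q hq0 ?_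
      have h1 := (hfib j r v).trans hpow
      exact_mod_cast h1
    choose f hf1 hf2 using hcode
    refine ⟨fun w i => f (fun i => π j (w i)) w i, fun w i => hf1 _ _ _, ?_⟩
    intro w hw w' hw' hππ hww
    have e : (fun i => π j (w' i)) = fun i => π j (w i) := funext fun i => (hππ i).symm
    refine hf2 (fun i => π j (w i)) w ⟨hw, fun i => rfl⟩ w' ⟨hw', fun i => (hππ i).symm⟩ ?_
    intro i hi
    have := hww i ((hiN i).1 hi)
    simp only [e] at this
    exact this
  choose f hf using key
  exact ⟨f, fun j r w i => (hf j r).1 w i, fun j r => (hf j r).2⟩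

end Pool.Agent.H93.PF
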