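import Pool.Agent.H93.PF.TargetsD

set_option autoImplicit false

open MeasureTheory Filter Topology Finset

namespace Pool.Agent.H93.PF

theorem pf_ENC : T_ENC := by
  classical
  intro d m tl Q hQ
  have hd : 0 < d := by
    obtain ⟨h1, h2⟩ := hQ tl.L (Or.inl rfl)
    have h3 : 0 < (HH d m tl.M (tl.L - tl.R)).card := by omega
    obtain ⟨w, -⟩ := Finset.card_pos.1 h3
    have hR := tl.R0
    have hL := tl.RL
    exact lt_of_le_of_lt (Nat.zero_le _) (w ⟨0, by omega⟩).2
  have key : ∀ g : ℕ, ∃ f : ℕ × ℕ → ℕ → (Fin (g - tl.R) → Fin d), (g = tl.L ∨ g = tl.L + 1) →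
      (∀ c k, c.1 < 3 → c.2 < 40 → k < Q g → f c k ∈ HH d m tl.M (g - tl.R)) ∧
      ∀ c k c' k', c.1 < 3 → c.2 < 40 → k < Q g →
        c'.1 < 3 → c'.2 < 40 → k' < Q g → f c k = f c' k' → c = c' ∧ k = k' := by
    intro g
    by_cases hg : g = tl.L ∨ g = tl.L + 1
    · obtain ⟨-, h2⟩ := hQ g hg
      have hcard : Fintype.card (Fin 3 × Fin 40 × Fin (Q g)) ≤
          Fintype.card (HH d m tl.M (g - tl.R)) := by
        simp only [Fintype.card_prod, Fintype.card_fin, Fintype.card_coe]
        have : 3 * (40 * Q g) = 120 * Q g := by ring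
        omega
      obtain ⟨e⟩ := Function.Embedding.nonempty_of_card_le hcard
      refine ⟨fun c k => if h : c.1 < 3 ∧ c.2 < 40 ∧ k < Q g then
        (e (⟨c.1, h.1⟩, ⟨c.2, h.2.1⟩, ⟨k, h.2.2⟩) : Fin (g - tl.R) → Fin d) else
        fun _ => ⟨0, hd⟩, fun _ => ⟨?_, ?_⟩⟩
      · intro c k h3 h4 h5
        simp only [h3, h4, h5, and_self, dite_true]
        exact (e _).2
      · intro c k c' k' h3 h4 h5 h3' h4' h5' he
        simp only [h3, h4, h5, h3', h4', h5', and_self, dite_true] at he
        have h6 := e.injective (Subtype.ext he)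
        simp only [Prod.mk.injEq, Fin.mk.injEq] at h6
        exact ⟨Prod.ext h6.1 h6.2.1, h6.2.2⟩
    · exact ⟨fun _ _ _ => ⟨0, hd⟩, fun h => absurd h hg⟩
  choose f hf using key
  exact ⟨f, fun g hg => (hf g hg).1, fun g hg => (hf g hg).2⟩

theorem pf_IXA : T_IXA := by
  classical
  intro Y _ T L D y k x s hx hx' hs hsx hno
  have hanti : ∀ a b, a ≤ b → Bk T L D b ⊆ Bk T L D a := by
    intro a b hab
    induction b, hab using Nat.le_induction with
    | base => exact fun _ h => h
    | succ b _ ih => exact fun z hz => ih hz.1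
  have hlv : lv T L D (zp T x y) = k := by
    unfold lv
    refine le_antisymm (Nat.sInf_le hx') ?_
    refine le_csInf ⟨k, hx'⟩ ?_
    intro b hb
    by_contra hc
    push Not at hc
    exact hb (hanti (b + 1) k hc hx)
  refine ⟨hlv, ?_⟩
  have hla : la T (Bk T L D (k + 1)) (zp T x y) = (x - s).toNat := by
    unfold la
    have e : ∀ a : ℕ, zp T (-(a : ℤ)) (zp T x y) ∈ Bk T L D (k + 1) ↔
        x - a ∈ ob T (Bk T L D (k + 1)) y := by
      intro a
      rw [mem_ob, show x - (a : ℤ) = -(a : ℤ) + x by ring, zp_add]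
    refine le_antisymm (Nat.sInf_le ?_) (le_csInf ⟨(x - s).toNat, ?_⟩ ?_)
    · rw [Set.mem_ofPred_eq, e]
      have : x - ((x - s).toNat : ℤ) = s := by omega
      rw [this]; exact hs
    · rw [Set.mem_ofPred_eq, e]
      have : x - ((x - s).toNat : ℤ) = s := by omega
      rw [this]; exact hs
    · intro a ha
      rw [Set.mem_ofPred_eq, e] at ha
      by_contra hc
      exact hno (x - a) (by omega) (by omega) ha
  unfold ix cnt
  rw [hlv, hla]
  have hmem : ∀ (n : ℕ) (j : ℤ), (j ∈ (do let a ← Finset.range n; pure (a : ℤ) : Finset ℤ)) ↔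
      0 ≤ j ∧ j < n := by
    intro n j
    simp only [Finset.bind_def, Finset.pure_def, Finset.mem_sup, Finset.mem_range,
      Finset.mem_singleton]
    constructor
    · rintro ⟨a, ha, rfl⟩
      omega
    · rintro ⟨h1, h2⟩
      exact ⟨j.toNat, by omega, by omega⟩
  refine Finset.card_bij (fun j _ => x - j) ?_ ?_ ?_
  · intro j hj
    rw [Finset.mem_filter, hmem] at hj
    rw [Finset.mem_filter, Finset.mem_Ioc]
    refine ⟨⟨by omega, by omega⟩, ?_⟩
    rw [mem_ob, show x - j = -j + x by ring, zp_add]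
    exact hj.2
  · intro a _ b _ hab
    omega
  · intro t ht
    rw [Finset.mem_filter, Finset.mem_Ioc] at ht
    refine ⟨x - t, ?_, by omega⟩
    rw [Finset.mem_filter, hmem]
    refine ⟨by omega, ?_⟩
    rw [← zp_add]
    have : -(x - t) + x = t := by omega
    rw [this]; exact ht.2

end Pool.Agent.H93.PF
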