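import Pool.Agent.H93.PF.TargetsD

set_option autoImplicit false

open MeasureTheory Filter Topology Finset

namespace Pool.Agent.H93.PF

theorem measurable_sh {d : ℕ} : Measurable (sh : (ℤ → Fin d) → (ℤ → Fin d)) :=
  measurable_pi_iff.2 fun n => measurable_pi_apply (n + 1)

theorem pf_ISO : T_ISO := by
  intro Y _ _ ν _ T d f G X hT hf hsh hG hinj hX
  -- a measurable set of full measure in `G ∩ f ⁻¹ X`
  have hGX : ν {y | ¬ (y ∈ G ∧ f y ∈ X)} = 0 := by
    have : ∀ᵐ y ∂ν, y ∈ G ∧ f y ∈ X := by
      filter_upwards [hG, hX] with y h1 h2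
      exact ⟨h1, h2⟩
    exact this
  obtain ⟨N, hN1, hN2, hN3⟩ := exists_measurable_superset_of_null hGX
  set G' : Set Y := Nᶜ with hG'
  have hG'm : MeasurableSet G' := hN2.compl
  have hG'1 : ∀ᵐ y ∂ν, y ∈ G' := by
    rw [ae_iff]
    refine measure_mono_null ?_ hN3
    intro y hy
    simpa [hG'] using hy
  have hG'2 : ∀ y ∈ G', y ∈ G ∧ f y ∈ X := by
    intro y hy
    by_contra hc
    exact hy (hN1 hc)
  have hinj' : Set.InjOn f G' := hinj.mono fun y hy => (hG'2 y hy).1
  have : StandardBorelSpace G' := hG'm.standardBorel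
  have hemb : MeasurableEmbedding (fun y : G' => f y) := by
    refine Measurable.measurableEmbedding (hf.comp measurable_subtype_coe) ?_
    intro a b hab
    exact Subtype.ext (hinj' a.2 b.2 hab)
  have hne : Nonempty Y := by
    have := (inferInstance : IsProbabilityMeasure ν).neZero
    exact ν.nonempty_of_neZero
  obtain ⟨g, hg, hgf⟩ := hemb.exists_measurable_extend (g := fun y : G' => (y : Y))
    measurable_subtype_coe (fun _ => hne)
  have hgf' : ∀ y ∈ G', g (f y) = y := fun y hy => congr_fun hgf ⟨y, hy⟩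
  have hS : MeasurableSet (f '' G') := by
    have := hemb.measurableSet_range
    have e : Set.range (fun y : G' => f y) = f '' G' := by
      ext x; simp
    rwa [e] at this
  have hSae : ∀ᵐ x ∂(ν.map f), x ∈ f '' G' := by
    have h1 : ∀ᵐ y ∂ν, f y ∈ f '' G' := by
      filter_upwards [hG'1] with y hy
      exact ⟨y, hy, rfl⟩
    exact (ae_map_iff hf.aemeasurable hS).2 h1
  refine ⟨ν.map f, Measure.isProbabilityMeasure_map hf.aemeasurable, ⟨measurable_sh, ?_⟩, ?_, ?_⟩
  · rw [Measure.map_map measurable_sh hf]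
    have e : (sh ∘ f : Y → ℤ → Fin d) = f ∘ T := funext fun y => (hsh y).symm
    rw [e, ← Measure.map_map hf T.measurable, hT.map_eq]
  · have : ∀ᵐ x ∂(ν.map f), x ∈ X := by
      filter_upwards [hSae] with x hx
      obtain ⟨y, hy, rfl⟩ := hx
      exact (hG'2 y hy).2
    exact this
  · refine ⟨f, g, hf, hg, rfl, Eventually.of_forall hsh, ?_, ?_⟩
    · filter_upwards [hG'1] with y hy
      exact hgf' y hy
    · filter_upwards [hSae] with x hx
      obtain ⟨y, hy, rfl⟩ := hx
      rw [hgf' y hy]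

end Pool.Agent.H93.PF
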