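import Pool.Agent.H93.PF.PJA

set_option autoImplicit false

open MeasureTheory Filter Topology Finset

namespace Pool.Agent.H93.PF

theorem pf_M1B (hLNB : T_LNB) (hTAU : T_TAU) (hB0F : T_B0F) (hBKF : T_BKF) : T_M1B := by
  intro Y _ T K L P D Q msg hM hmsg y hy hyB
  obtain ⟨A, hA, r, hN, hA0, h0r⟩ := hy.gap 0 0
  obtain ⟨hr, hmem⟩ := hB0F Y T L D hM y hy A r hA hN
  obtain ⟨t1, t2, t3, t4, t5⟩ := hTAU L r hM.two hr
  have h0B : (0 : ℤ) ∈ ob T (Bk T L D 0) y := by rw [mem_ob, zp_zero]; exact hyB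
  obtain ⟨i, hi, h0i⟩ := (hmem 0 hA0 h0r).1 h0B
  obtain ⟨-, -, -, h2⟩ := hLNB Y T (D 0) y
  obtain ⟨a1, a2⟩ := h2 A r hA hN 0 hA0 h0r
  have hla : la T (D 0) y = tau L r i := by
    rw [zp_zero] at a1; omega
  have hna : la T (D 0) y + na T (D 0) y = r := by
    rw [zp_zero] at a1 a2; omega
  -- the next tile
  have hstep : tau L r i < tau L r (i + 1) := by
    have := hM.two
    rcases t4 i with h | h <;> omega
  have hNx : Nx (ob T (Bk T L D 0) y) 0 (tau L r (i + 1) - tau L r i) := by
    obtain ⟨g, hg, hNg⟩ := (hBKF Y T L D hM y hy).2.2.2 0 h0B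
    have hmono : ∀ a b, a < b → tau L r a < tau L r b := by
      intro a b hab
      have h2L := hM.two
      have hs : ∀ c, tau L r c < tau L r (c + 1) := fun c => by
        rcases t4 c with h | h <;> omega
      exact strictMono_nat_of_lt_succ hs hab
    refine ⟨by omega, ?_, ?_⟩
    · have e : (0 : ℤ) + ((tau L r (i + 1) - tau L r i : ℕ) : ℤ) = A + tau L r (i + 1) := by omega
      rw [e]
      by_cases h3 : i + 1 < nt L r
      · have h4 := hmono (i + 1) (nt L r) h3
        exact (hmem _ (by omega) (by omega)).2 ⟨i + 1, h3, rfl⟩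
      · have h4 : i + 1 = nt L r := by omega
        rw [h4, t3]
        exact (hBKF Y T L D hM y hy).1 0 hN.2.1
    · intro x hx hx' hxB
      have h3 : x < A + r := by
        have h4 : tau L r (i + 1) ≤ r := by
          rcases Nat.lt_or_ge (i + 1) (nt L r) with h5 | h5
          · have := hmono _ _ h5; omega
          · have h6 : i + 1 = nt L r := by omega
            rw [h6, t3]
        omega
      obtain ⟨i', hi', hx2⟩ := (hmem x (by omega) h3).1 hxB
      have h5 : tau L r i < tau L r i' := by omega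
      have h6 : tau L r i' < tau L r (i + 1) := by omega
      have h7 : i < i' := by
        by_contra hc
        rcases Nat.lt_or_ge i' i with h8 | h8
        · have := hmono _ _ h8; omega
        · have : i' = i := by omega
          subst this; omega
      have h8 : i' < i + 1 := by
        by_contra hc
        rcases Nat.lt_or_ge (i + 1) i' with h9 | h9
        · have := hmono _ _ h9; omega
        · have : i' = i + 1 := by omega
          subst this; omega
      omega
  have hnaB : na T (Bk T L D 0) y = tau L r (i + 1) - tau L r i := by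
    obtain ⟨-, -, -, h3⟩ := hLNB Y T (Bk T L D 0) y
    obtain ⟨-, b2⟩ := h3 0 _ h0B hNx 0 le_rfl (by have := hNx.1; omega)
    rw [zp_zero] at b2
    omega
  have e1 := nam_eq (T := T) P (D 0) y 0 A r
    (fun r' w => msg r' w (ti L r' (la T (D 0) y))) a1 a2
  rw [zp_zero] at e1
  have h9 := hmsg r hr (fun i : Fin r => P (zp T (A + ((i : ℕ) : ℤ)) y)) i hi
  unfold ms1
  rw [e1, hla, t5, hnaB]
  split_ifs <;> omega

theorem pf_DJA (hBKF : T_BKF) (hXMA : T_XMA) : T_DJA := by
  intro Y _ T L D K P code hM y y' hy hy' hB hx j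
  have hfm : ∀ s ∈ ob T (Bk T L D (j + 1)) y,
      fm T L D P code j (zp T s y) = fm T L D P code j (zp T s y') := by
    intro s hs
    have hsj : s ∈ ob T (Bk T L D j) y := hs.1
    obtain ⟨g, -, -, hN⟩ := (hBKF Y T L D hM y hy).2.2.1 j s hsj
    obtain ⟨h1, h2⟩ := hXMA Y T L D K P code hM y hy j s g hs hN
    obtain ⟨-, h2'⟩ := hXMA Y T L D K P code hM y' hy' j s g (hB (j + 1) ▸ hs) (hB j ▸ hN)
    rw [← h2, ← h2']
    exact hx _ h1
  refine ⟨?_, hfm⟩
  have key : ∀ s ∈ ob T (Bk T L D (j + 1)) y, (zp T s y ∈ D (j + 1) ↔ zp T s y' ∈ D (j + 1)) := by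
    intro s hs
    have h1 := hfm s hs
    unfold fm at h1
    by_cases hc : zp T s y ∈ D (j + 1) <;> by_cases hc' : zp T s y' ∈ D (j + 1)
    · simp [hc, hc']
    · rw [if_pos hc, if_neg hc'] at h1; omega
    · rw [if_neg hc, if_pos hc'] at h1; omega
    · simp [hc, hc']
  ext s
  constructor
  · intro hs
    exact (key s ((hBKF Y T L D hM y hy).1 (j + 1) hs)).1 hs
  · intro hs
    have := (hBKF Y T L D hM y' hy').1 (j + 1) hs
    rw [← hB] at this
    exact (key s this).2 hs

theorem pf_BKA (_hSKD : T_SKD) (hSKR : T_SKR) (_hBKF : T_BKF) (hSKC : T_SKC) : T_BKA := by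
  intro Y _ T L D hM y y' hy hy' hB0 hco k
  have hL : 0 < L := by have := hM.two; omega
  have hS := hSKC Y T L D hM y hy
  have hS' := hSKC Y T L D hM y' hy'
  have hsub : ∀ k, ob T (Bk T L D k) y ⊆ ob T (Bk T L D 0) y := by
    intro k
    induction k with
    | zero => exact fun _ h => h
    | succ k ih => exact fun s hs => ih hs.1
  induction k with
  | zero => exact hB0
  | succ k ih =>
    have main : ∀ s ∈ ob T (Bk T L D k) y,
        (s ∈ ob T (Bk T L D (k + 1)) y ↔ s ∈ ob T (Bk T L D (k + 1)) y') := by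
      intro s hs
      obtain ⟨g₁, -, -, hN1⟩ := hS.next k s hs
      obtain ⟨g₂, -, -, hN2⟩ := hS.next k (s + g₁) hN1.2.1
      have h1 := hSKR L _ _ hS hL k s g₁ g₂ hs hN1 hN2
      have h2 := hSKR L _ _ hS' hL k s g₁ g₂ (ih ▸ hs) (by
        have : Nx (ob T (Bk T L D k) y) s g₁ := hN1
        rw [ih] at this; exact this) (by
        have : Nx (ob T (Bk T L D k) y) (s + g₁) g₂ := hN2
        rw [ih] at this; exact this)
      rw [h1, h2, hco (s + g₁) (hsub k hN1.2.1), hco (s + g₁ + g₂) (hsub k hN2.2.1)]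
    ext s
    constructor
    · intro hs
      exact (main s hs.1).1 hs
    · intro hs
      have h3 : s ∈ ob T (Bk T L D k) y := by rw [ih]; exact hs.1
      exact (main s h3).2 hs

end Pool.Agent.H93.PF
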