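import Pool.Agent.H93.PF.PJA

set_option autoImplicit false

open MeasureTheory Filter Topology Finset

namespace Pool.Agent.H93.PF

theorem pf_M1D (hLNB : T_LNB) (hTAU : T_TAU) (hB0F : T_B0F) (hBKF : T_BKF) : T_M1D := by
  intro Y _ T K L P D S msg hM hS hmsg y y' hy hy' hB hms n
  -- `D 0` is determined
  have hD0 : ob T (D 0) y = ob T (D 0) y' := by
    have key : ∀ s ∈ ob T (Bk T L D 0) y, (zp T s y ∈ D 0 ↔ zp T s y' ∈ D 0) := by
      intro s hs
      have h1 := hms s hs
      unfold ms1 at h1
      by_cases hc : zp T s y ∈ D 0 <;> by_cases hc' : zp T s y' ∈ D 0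
      · simp [hc, hc']
      · rw [if_pos hc, if_neg hc'] at h1; omega
      · rw [if_neg hc, if_pos hc'] at h1; omega
      · simp [hc, hc']
    ext s
    constructor
    · intro hs
      exact (key s ((hBKF Y T L D hM y hy).1 0 hs)).1 hs
    · intro hs
      have := (hBKF Y T L D hM y' hy').1 0 hs
      rw [← hB] at this
      exact (key s this).2 hs
  obtain ⟨A, hA, r, hN, hAn, hnr⟩ := hy.gap 0 n
  have hA' : A ∈ ob T (D 0) y' := hD0 ▸ hA
  have hN' : Nx (ob T (D 0) y') A r := hD0 ▸ hN
  obtain ⟨hr, hmem⟩ := hB0F Y T L D hM y hy A r hA hN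
  obtain ⟨t1, t2, t3, t4, t5⟩ := hTAU L r hM.two hr
  have hmemS : ∀ z : Y, A ∈ ob T (D 0) z →
      (fun i : Fin r => P (zp T (A + ((i : ℕ) : ℤ)) z)) ∈ S r := by
    intro z hz
    have h1 := hS (zp T A z) hz r hr
    have e : (fun i : Fin r => P (zp T (A + ((i : ℕ) : ℤ)) z)) =
        fun i : Fin r => P (zp T ((i : ℕ) : ℤ) (zp T A z)) := by
      funext i
      rw [add_comm A, zp_add]
    rwa [e]
  have htau : ∀ i, i ≤ nt L r → tau L r i ≤ r := by
    intro i hi
    have : ∀ k, tau L r (nt L r) ≥ tau L r (nt L r - k) := by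
      intro k
      induction k with
      | zero => simp
      | succ k ih =>
        by_cases hk : k < nt L r
        · have e : nt L r - k = nt L r - (k + 1) + 1 := by omega
          rcases t4 (nt L r - (k + 1)) with h | h
          · rw [← e] at h; omega
          · rw [← e] at h; omega
        · have : nt L r - (k + 1) = nt L r - k := by omega
          rw [this]; exact ih
    have h2 := this (nt L r - i)
    rw [show nt L r - (nt L r - i) = i by omega, t3] at h2
    exact h2
  have hw := hmsg r hr _ (hmemS y hA) _ (hmemS y' hA') (fun i hi => by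
    have hlt : tau L r i < r := by
      have h2 := htau (i + 1) hi
      have := hM.two
      rcases t4 i with h | h <;> omega
    set s : ℤ := A + tau L r i with hs
    have hsB : s ∈ ob T (Bk T L D 0) y :=
      (hmem s (by omega) (by omega)).2 ⟨i, hi, rfl⟩
    have h1 := hms s hsB
    obtain ⟨-, -, -, h2⟩ := hLNB Y T (D 0) y
    obtain ⟨-, -, -, h2'⟩ := hLNB Y T (D 0) y'
    obtain ⟨a1, a2⟩ := h2 A r hA hN s (by omega) (by omega)
    obtain ⟨b1, b2⟩ := h2' A r hA' hN' s (by omega) (by omega)
    unfold ms1 at h1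
    have e1 := nam_eq (T := T) P (D 0) y s A r
      (fun r' w => msg r' w (ti L r' (la T (D 0) (zp T s y)))) a1 a2
    have e2 := nam_eq (T := T) P (D 0) y' s A r
      (fun r' w => msg r' w (ti L r' (la T (D 0) (zp T s y')))) b1 b2
    rw [e1, e2] at h1
    have c1 : la T (D 0) (zp T s y) = tau L r i := by omega
    have c2 : la T (D 0) (zp T s y') = tau L r i := by omega
    rw [c1, c2, t5] at h1
    have e4 : (zp T s y ∈ D 0) ↔ (zp T s y' ∈ D 0) := Set.ext_iff.1 hD0 s
    by_cases hc : zp T s y ∈ D 0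
    · rw [if_pos hc, if_pos (e4.1 hc)] at h1
      omega
    · rw [if_neg hc, if_neg (fun h => hc (e4.2 h))] at h1
      omega)
  have := congrFun hw ⟨(n - A).toNat, by omega⟩
  simp only at this
  have e : A + ((n - A).toNat : ℤ) = n := by omega
  rwa [e] at this

end Pool.Agent.H93.PF
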