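import Pool.Agent.H93.PF.TargetsD

set_option autoImplicit false

open MeasureTheory Filter Topology Finset

namespace Pool.Agent.H93.PF

theorem pf_MMF : T_MMF := by
  intro β plus q m hβ hq
  have hq' : (0 : ℝ) < q := by exact_mod_cast hq
  have hb : (0 : ℝ) ≤ β * q := by positivity
  have hlt : (q : ℝ) < β * q := by nlinarith
  cases plus with
  | false =>
    have e : mm β false q = ⌈β * q⌉₊ := by simp [mm]
    refine ⟨?_, ?_, ?_⟩
    · rw [e]
      simp only [Forb, Bool.false_eq_true, if_false]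
      exact Nat.ceil_le.symm
    · rw [e]; exact Nat.le_ceil _
    · rw [e]; exact Nat.lt_ceil.2 hlt
  | true =>
    have e : mm β true q = ⌊β * q⌋₊ + 1 := by simp [mm]
    refine ⟨?_, ?_, ?_⟩
    · rw [e]
      simp only [Forb, if_true]
      rw [Nat.add_one_le_iff, Nat.floor_lt hb]
    · rw [e]; push_cast; exact (Nat.lt_floor_add_one _).le
    · rw [e, Nat.lt_add_one_iff]; exact Nat.le_floor hlt.le

theorem pf_X2B : T_X2B := by
  intro Y _ T L D K P code msg q hc y
  have hx : xm T L D P code y < 2 * q := by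
    unfold xm fm
    have := hc (lv T L D y) _ (nam T (P (lv T L D y + 1)) (D (lv T L D y + 1))
      (zp T (-(pa T (Bk T L D (lv T L D y)) y : ℤ)) y))
      (bi T (Bk T L D (lv T L D y + 1)) (D (lv T L D y + 1))
        (zp T (-(pa T (Bk T L D (lv T L D y)) y : ℤ)) y))
    split_ifs <;> omega
  refine ⟨?_, ?_, ?_⟩
  · unfold ms2
    rw [Nat.add_mul_mod_self_left, Nat.mod_eq_of_lt hx]
  · unfold ms2
    rw [Nat.add_mul_div_left _ _ (by omega), Nat.div_eq_of_lt hx, zero_add]
  · intro Q hQ
    unfold ms2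
    have : (ms1 T L (P 0) (D 0) msg y + 1) ≤ Q := hQ
    have h2 := Nat.mul_le_mul_left (2 * q) this
    rw [Nat.mul_add, mul_one] at h2
    omega

end Pool.Agent.H93.PF
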