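import Pool.Agent.H93.PF.TargetsD

set_option autoImplicit false

open MeasureTheory Filter Topology Finset

namespace Pool.Agent.H93.PF

theorem pf_PFR (hMMF : T_MMF) (hSML : T_SML) (hINV : T_INV) (hSKF : T_SKF) : T_PFR := by
  intro d β plus c B col z hβ hRL hz hS hcol i q m hq hF
  obtain ⟨h1, h2, -⟩ := hMMF β plus q m (by linarith) hq
  have hm : mm β plus q ≤ m := h1.1 hF
  by_cases hqL : q < c.L
  · obtain ⟨j, hj, hj', hne⟩ := hSML d (mm β plus) c (B 0) z hz q hq hqL i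
    exact ⟨j, hj, by omega, hne⟩
  · push Not at hqL
    by_contra hno
    push Not at hno
    have hper : ∀ j : ℤ, i ≤ j → j + q < i + (mm β plus q : ℕ) → z (j + q) = z j :=
      fun j hj hj' => hno j hj (by omega)
    obtain ⟨hA, hB⟩ := hINV d (mm β plus) c (B 0) z hz q i (i + (mm β plus q : ℕ)) hper
    have hL0 : 0 < c.L := by have := c.R0; have := c.RL; omega
    -- the numbers
    have hkey : 4 * q + c.R + 1 ≤ mm β plus q := by
      have h3 : (c.L : ℝ) ≤ q := by exact_mod_cast hqL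
      have h4 : ((4 * q + c.R + 1 : ℕ) : ℝ) ≤ (mm β plus q : ℝ) := by
        push_cast
        nlinarith
      exact_mod_cast h4
    set b₀ : ℤ := i + (mm β plus q : ℕ) - c.R - (c.L + 1) with hb₀
    refine hSKF c.L B col hS hL0 q i b₀ hqL ?_ ?_ ?_ ?_
    · intro j hj hj'
      exact hA j hj (by omega)
    · intro j hjB hj hj'
      obtain ⟨g, hg, hNx⟩ := hz.next j hjB
      obtain ⟨h5, h6, h7⟩ := hB j hjB g hj hNx (by omega)
      exact hcol (j + q) h5 j hjB g h6 hNx h7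
    · omega
    · omega

theorem pf_ZPF (hZTI : T_ZTI) (hSKC : T_SKC) (hPFR : T_PFR) : T_ZPF := by
  intro Y _ T d β plus c y hβ hRL hR
  obtain ⟨h1, h2⟩ := hZTI Y T d (mm β plus) c y hR
  refine hPFR d β plus c.tl (fun k => ob T (Bk T c.tl.L c.D k) y)
    (fun n => co T c.tl.L c.D (zp T n y)) (c.phi y) hβ hRL h1 (hSKC Y T c.tl.L c.D c.mkD y hR) ?_
  intro j hj j' hj' g hg hg' hw
  obtain ⟨a1, a2, a3, a4⟩ := h2 j hj g hg
  obtain ⟨b1, b2, b3, b4⟩ := h2 j' hj' g hg'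
  rw [a1, b1] at hw
  obtain ⟨g', hg1, hg2⟩ := h1.next j hj
  have : g' = g := hg2.uniq hg
  subst this
  exact (c.enci g' hg1 _ _ _ _ a3 a4 a2 b3 b4 b2 hw).1

theorem pf_ZIN (hOCC : T_OCC) (hZTI : T_ZTI) : T_ZIN := by
  intro Y _ T d m c y y' hR hR' he
  obtain ⟨h1, h2⟩ := hZTI Y T d m c y hR
  obtain ⟨h1', h2'⟩ := hZTI Y T d m c y' hR'
  have hob : ob T c.B0 y = ob T c.B0 y' := by
    ext p
    constructor
    · intro hp
      refine hOCC d m c.tl _ _ h1' p fun j => ?_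
      rw [← he]
      exact h1.mark p hp j
    · intro hp
      refine hOCC d m c.tl _ _ h1 p fun j => ?_
      rw [he]
      exact h1'.mark p hp j
  refine ⟨hob, fun s hs => ?_⟩
  obtain ⟨g, hg1, hg2⟩ := h1.next s hs
  obtain ⟨a1, a2, a3, a4⟩ := h2 s hs g hg2
  obtain ⟨b1, b2, b3, b4⟩ := h2' s (hob ▸ hs) g (hob ▸ hg2)
  rw [he, b1] at a1
  have := c.enci g hg1 _ _ _ _ b3 b4 b2 a3 a4 a2 a1
  exact ⟨this.1.symm, this.2.symm⟩

end Pool.Agent.H93.PF
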