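import Pool.Agent.H93.PF.TargetsD

set_option autoImplicit false

open MeasureTheory Filter Topology Finset

namespace Pool.Agent.H93.PF

section

variable {Y : Type} [MeasurableSpace Y] {T : Y ≃ᵐ Y}

theorem Rc.below {D : ℕ → Set Y} {y : Y} (h : Rc T D y) (k : ℕ) (i : ℤ) :
    ∃ s ∈ ob T (D k) y, s ≤ i := by
  obtain ⟨-, j, hj, hj'⟩ := h k i.natAbs
  exact ⟨-(j : ℤ), hj', by omega⟩

theorem Rc.next {D : ℕ → Set Y} {y : Y} (h : Rc T D y) (k : ℕ) (s : ℤ) :
    ∃ g : ℕ, Nx (ob T (D k) y) s g := by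
  classical
  obtain ⟨⟨j, hj, hj'⟩, -⟩ := h k (s.natAbs + 1)
  have hex : ∃ g : ℕ, 0 < g ∧ s + g ∈ ob T (D k) y := by
    refine ⟨((j : ℤ) - s).toNat, by omega, ?_⟩
    have : s + (((j : ℤ) - s).toNat : ℤ) = j := by omega
    rw [this]; exact hj'
  refine ⟨Nat.find hex, (Nat.find_spec hex).1, (Nat.find_spec hex).2, ?_⟩
  intro i hi hi' hB
  have h1 := Nat.find_min' hex (m := (i - s).toNat) ⟨by omega, by
    have : s + ((i - s).toNat : ℤ) = i := by omega
    rw [this]; exact hB⟩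
  omega

theorem Rc.gap {D : ℕ → Set Y} {y : Y} (h : Rc T D y) (k : ℕ) (i : ℤ) :
    ∃ s ∈ ob T (D k) y, ∃ g : ℕ, Nx (ob T (D k) y) s g ∧ s ≤ i ∧ i < s + g :=
  exists_gap (fun i => h.below k i) (fun s _ => h.next k s) i

theorem la_congr {S : Set Y} {y y' : Y} (h : ob T S y = ob T S y') (s : ℤ) :
    la T S (zp T s y) = la T S (zp T s y') := by
  unfold la
  congr 1
  ext a
  have := Set.ext_iff.1 h (-(a : ℤ) + s)
  simpa [mem_ob, zp_add] using this

theorem bi_congr {S S' : Set Y} {y y' : Y} (h : ob T S y = ob T S y')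
    (h' : ob T S' y = ob T S' y') (s : ℤ) :
    bi T S S' (zp T s y) = bi T S S' (zp T s y') := by
  classical
  unfold bi
  rw [la_congr h' s]
  congr 1
  ext j
  have := Set.ext_iff.1 h (-((j : ℤ) + 1) + s)
  simp only [mem_ob, zp_add] at this
  simp only [mem_filter]
  exact and_congr_right fun _ => this

theorem nam_eq {K : ℕ} {α : Type} (P : Y → Fin K) (S : Set Y) (y : Y) (s A : ℤ) (r : ℕ)
    (F : (r : ℕ) → (Fin r → Fin K) → α)
    (h1 : (la T S (zp T s y) : ℤ) = s - A) (h2 : (na T S (zp T s y) : ℤ) = A + r - s) :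
    F (la T S (zp T s y) + na T S (zp T s y)) (nam T P S (zp T s y)) =
      F r (fun i : Fin r => P (zp T (A + ((i : ℕ) : ℤ)) y)) := by
  have h3 : la T S (zp T s y) + na T S (zp T s y) = r := by omega
  have h4 : ∀ (r' : ℕ) (e : la T S (zp T s y) + na T S (zp T s y) = r'),
      F (la T S (zp T s y) + na T S (zp T s y)) (nam T P S (zp T s y)) =
      F r' (fun i : Fin r' => P (zp T (A + ((i : ℕ) : ℤ)) y)) := by
    intro r' e
    subst e
    congr 1
    funext i
    unfold nam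
    rw [← zp_add]
    congr 2
    rw [h1]; ring
  exact h4 r h3

end

theorem pf_PJA (hLNB : T_LNB) (hDJA : T_DJA) (hBIX : T_BIX) : T_PJA := by
  intro Y _ T L D K P π code S hM hπ hS hcode y y' hy hy' hB hx h0 j
  obtain hD := hDJA Y T L D K P code hM y y' hy hy' hB hx
  induction j with
  | zero => exact h0
  | succ j ih =>
    intro n
    obtain ⟨hDj, hfm⟩ := hD j
    obtain ⟨A, hA, r, hN, hAn, hnr⟩ := hy.gap (j + 1) n
    have hA' : A ∈ ob T (D (j + 1)) y' := hDj ▸ hA
    have hN' : Nx (ob T (D (j + 1)) y') A r := hDj ▸ hN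
    have hmem : ∀ z : Y, A ∈ ob T (D (j + 1)) z → Nx (ob T (D (j + 1)) z) A r →
        (fun i : Fin r => P (j + 1) (zp T (A + ((i : ℕ) : ℤ)) z)) ∈ S j r := by
      intro z hz hzN
      have h1 := hS j (zp T A z) hz r hzN.1 (by
        have := hzN.2.1
        rw [mem_ob, add_comm A (r : ℤ), zp_add] at this
        exact this)
      have e : (fun i : Fin r => P (j + 1) (zp T (A + ((i : ℕ) : ℤ)) z)) =
          fun i : Fin r => P (j + 1) (zp T ((i : ℕ) : ℤ) (zp T A z)) := by
        funext i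
        rw [add_comm A, zp_add]
      rwa [e]
    have hw := hcode j r _ (hmem y hA hN) _ (hmem y' hA' hN') (fun i => by
      rw [← hπ, ← hπ]; exact ih _) (fun i hi => by
      obtain ⟨s, hs, hs1, hs2, hs3⟩ := hBIX Y T L D hM y hy j A r hA hN i hi
      have h1 := hfm s hs
      obtain ⟨-, -, -, h2⟩ := hLNB Y T (D (j + 1)) y
      obtain ⟨-, -, -, h2'⟩ := hLNB Y T (D (j + 1)) y'
      obtain ⟨a1, a2⟩ := h2 A r hA hN s hs1 hs2
      obtain ⟨b1, b2⟩ := h2' A r hA' hN' s hs1 hs2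
      unfold fm at h1
      have e1 := nam_eq (T := T) (P (j + 1)) (D (j + 1)) y s A r
        (fun r w => code j r w (bi T (Bk T L D (j + 1)) (D (j + 1)) (zp T s y))) a1 a2
      have e2 := nam_eq (T := T) (P (j + 1)) (D (j + 1)) y' s A r
        (fun r w => code j r w (bi T (Bk T L D (j + 1)) (D (j + 1)) (zp T s y'))) b1 b2
      rw [e1, e2] at h1
      have e3 : bi T (Bk T L D (j + 1)) (D (j + 1)) (zp T s y') = i := by
        rw [← bi_congr (hB (j + 1)) hDj s]; exact hs3
      rw [hs3, e3] at h1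
      have e4 : (zp T s y ∈ D (j + 1)) ↔ (zp T s y' ∈ D (j + 1)) := Set.ext_iff.1 hDj s
      by_cases hc : zp T s y ∈ D (j + 1)
      · rw [if_pos hc, if_pos (e4.1 hc)] at h1
        omega
      · rw [if_neg hc, if_neg (fun h => hc (e4.2 h))] at h1
        omega)
    have := congrFun hw ⟨(n - A).toNat, by omega⟩
    simp only at this
    have e : A + ((n - A).toNat : ℤ) = n := by omega
    rwa [e] at this

end Pool.Agent.H93.PF
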