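import Pool.Agent.H93.PF.TargetsD

set_option autoImplicit false

open MeasureTheory Filter Topology Finset

namespace Pool.Agent.H93.PF

theorem pf_REX (hHNB : T_HNB) : T_REX := by
  intro Y _ ν _ T K K' P P' δ hP hP' hd
  obtain ⟨-, -, hb1, hb2⟩ := hHNB Y ν T K P hP
  obtain ⟨-, -, hb1', hb2'⟩ := hHNB Y ν T K' P' hP'
  set ε := (δ - (entP ν T P' - entP ν T P)) / 2 with hε
  have hε0 : 0 < ε := by rw [hε]; linarith
  have h1 : ∀ᶠ k : ℕ in atTop, Hn ν T P' k / k < entP ν T P' + ε :=
    eventually_lt_of_limsup_lt (show limsup (fun n : ℕ => Hn ν T P' n / n) atTop < _ by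
      change entP ν T P' < _; linarith) hb1'
  have h2 : ∃ᶠ k : ℕ in atTop, entP ν T P - ε < Hn ν T P k / k :=
    frequently_lt_of_lt_limsup (hb2.isCoboundedUnder_le)
      (show _ < limsup (fun n : ℕ => Hn ν T P n / n) atTop by
        change _ < entP ν T P; linarith)
  obtain ⟨k, h3, h4, h5⟩ := (h2.and_eventually (h1.and (eventually_gt_atTop 0))).exists
  have hk : (0 : ℝ) < k := by exact_mod_cast h5
  refine ⟨k, h5, ?_⟩
  rw [lt_div_iff₀ hk] at h3
  rw [div_lt_iff₀ hk] at h4
  have : (entP ν T P' + ε - (entP ν T P - ε)) = δ := by rw [hε]; ring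
  calc Hn ν T P' k - Hn ν T P k < (entP ν T P' + ε) * k - (entP ν T P - ε) * k := by linarith
    _ = (entP ν T P' + ε - (entP ν T P - ε)) * k := by ring
    _ = k * δ := by rw [this]; ring

theorem pf_SMU (hRSM : T_RSM) : T_SMU := by
  intro Y _ ν _ T K P h' hT hP hh
  have e0 : ∀ (n : ℕ) (w : Fin n → Fin 1), cyl (T : Y → Y) (fun _ : Y => (0 : Fin 1)) w = Set.univ := by
    intro n w
    ext y
    simp only [cyl, Set.mem_ofPred_eq, Set.mem_univ, iff_true]
    intro i
    exact Subsingleton.elim _ _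
  have e1 : ∀ n : ℕ, Hn ν T (fun _ : Y => (0 : Fin 1)) n = 0 := by
    intro n
    unfold Hn
    refine Finset.sum_eq_zero fun w _ => ?_
    rw [e0]
    simp
  have e2 : entP ν T (fun _ : Y => (0 : Fin 1)) = 0 := by
    unfold entP
    simp only [e1, zero_div]
    exact limsup_const 0
  have h := hRSM Y ν T 1 K (fun _ => 0) P (fun _ => 0) h' hT hP (fun _ => rfl) (by rw [e2]; linarith)
  filter_upwards [h] with y hy
  filter_upwards [hy] with n hn
  have h2 := hn.2
  unfold pn at h2
  rw [e0] at h2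
  simpa [pn] using h2

end Pool.Agent.H93.PF
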