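import Pool.Agent.H93.PF.TargetsD

set_option autoImplicit false

open MeasureTheory Filter Topology Finset

namespace Pool.Agent.H93.PF

theorem sum_blocks (F : ℕ → ℝ) (hF : ∀ j, F j ≤ 0) (k n : ℕ) (hk : 0 < k) :
    ∑ j ∈ range n, F j ≤ ∑ i ∈ range k, ∑ b ∈ range ((n - i) / k), F (i + b * k) := by
  classical
  rw [Finset.sum_sigma' (range k) (fun i => range ((n - i) / k)) (fun i b => F (i + b * k))]
  set s := (range k).sigma fun i => range ((n - i) / k) with hs
  have hinj : Set.InjOn (fun x : (_ : ℕ) × ℕ => x.1 + x.2 * k) (s : Set ((_ : ℕ) × ℕ)) := by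
    rintro ⟨i, b⟩ hx ⟨i', b'⟩ hx' he
    simp only [hs, Finset.coe_sigma, Set.mem_sigma_iff, Finset.mem_coe, mem_range] at hx hx'
    simp only at he
    have h1 : i = i' := by
      have := congrArg (· % k) he
      simpa [Nat.mod_eq_of_lt hx.1, Nat.mod_eq_of_lt hx'.1] using this
    subst h1
    have h2 : b * k = b' * k := by omega
    have h3 : b = b' := Nat.eq_of_mul_eq_mul_right hk h2
    rw [h3]
  have himg : ∑ x ∈ s, F (x.1 + x.2 * k) = ∑ j ∈ s.image (fun x => x.1 + x.2 * k), F j := by
    rw [Finset.sum_image hinj]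
  rw [himg]
  have hsub : s.image (fun x => x.1 + x.2 * k) ⊆ range n := by
    intro j hj
    obtain ⟨⟨i, b⟩, hx, rfl⟩ := Finset.mem_image.1 hj
    simp only [hs, Finset.mem_sigma, mem_range] at hx ⊢
    have h1 : (b + 1) * k ≤ (n - i) / k * k := Nat.mul_le_mul_right k hx.2
    have h2 : (n - i) / k * k ≤ n - i := Nat.div_mul_le_self _ _
    have h3 : (b + 1) * k = b * k + k := by ring
    omega
  have := Finset.sum_le_sum_of_subset_of_nonneg (f := fun j => - F j) hsub
    (fun j _ _ => by linarith [hF j])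
  simp only [Finset.sum_neg_distrib] at this
  linarith

theorem pf_RSM (hRBC : T_RBC) (hRBI : T_RBI) (hREX : T_REX) : T_RSM := by
  intro Y _ ν _ T K K' P P' π δ hT hP' hπ hd
  have hP : Measurable P := by
    have : P = π ∘ P' := funext hπ
    rw [this]
    exact (measurable_of_finite π).comp hP'
  obtain ⟨k, hk, hkd⟩ := hREX Y ν T K K' P P' δ hP hP' hd
  set D := Hn ν T P' k - Hn ν T P k with hD
  set e := (k : ℝ) * δ - D with he
  have he0 : 0 < e := by rw [he]; linarith
  have hk0 : (0 : ℝ) < k := by exact_mod_cast hk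
  set ε := e / (4 * k) with hε
  have hε0 : 0 < ε := by positivity
  have hK' : 0 < K' := by
    have : Nonempty Y := by
      have := (inferInstance : IsProbabilityMeasure ν).neZero
      exact ν.nonempty_of_neZero
    obtain ⟨y⟩ := this
    exact lt_of_le_of_lt (Nat.zero_le _) (P' y).2
  have hK'0 : (0 : ℝ) < K' := by exact_mod_cast hK'
  filter_upwards [hRBC Y ν T K K' P P' π k ε hT.toMeasurePreserving hP' hπ hk hε0,
    hRBI Y ν T K K' P P' k hT hP hP'] with y hy1 hy2
  obtain ⟨hpos, hlim⟩ := hy2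
  have hbig : ∀ᶠ n : ℕ in atTop, 2 * (k : ℝ) ^ 2 * Real.log K' ≤ n * (e / 2) := by
    have h1 : Tendsto (fun n : ℕ => (n : ℝ) * (e / 2)) atTop atTop :=
      tendsto_natCast_atTop_atTop.atTop_mul_const (by positivity)
    exact h1.eventually_ge_atTop _
  have hlim' : ∀ᶠ n : ℕ in atTop, (Hn ν T P k - Hn ν T P' k) - e / 4 <
      (∑ i ∈ range n, (Real.log (pn ν T P' k (T^[i] y)) - Real.log (pn ν T P k (T^[i] y)))) / n :=
    hlim.eventually_const_lt (by linarith)
  filter_upwards [hy1, hbig, hlim', eventually_gt_atTop 0] with n h1 h2 h3 h4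
  have hn0 : (0 : ℝ) < n := by exact_mod_cast h4
  have hp : 0 < pn ν T P n y := by simpa using (hpos 0 n).1
  have hp' : 0 < pn ν T P' n y := by simpa using (hpos 0 n).2
  refine ⟨hp', ?_⟩
  set F : ℕ → ℝ := fun i => Real.log (pn ν T P' k (T^[i] y)) - Real.log (pn ν T P k (T^[i] y))
    with hF
  have hF0 : ∀ j, F j ≤ 0 := by
    intro j
    have : pn ν T P' k (T^[j] y) ≤ pn ν T P k (T^[j] y) := by
      unfold pn
      refine measureReal_mono (fun z hz i => ?_) (measure_ne_top _ _)
      exact ((hπ _).trans (congrArg π (hz i))).trans (hπ _).symm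
    have := Real.log_le_log (hpos j k).2 this
    simp only [hF]; linarith
  have hrw : ∀ i, Real.log (rw' ν T P P' k i n y) =
      - (2 * k * Real.log K') + ∑ b ∈ range ((n - i) / k), F (i + b * k) := by
    intro i
    unfold rw'
    rw [Real.log_mul (by positivity) (Finset.prod_pos fun b _ =>
      div_pos (hpos _ k).2 (hpos _ k).1).ne', Real.log_inv, Real.log_pow,
      Real.log_prod (fun b _ => (div_pos (hpos _ k).2 (hpos _ k).1).ne')]
    push_cast
    congr 1
    refine Finset.sum_congr rfl fun b _ => ?_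
    rw [Real.log_div (hpos _ k).2.ne' (hpos _ k).1.ne']
  have hrwpos : ∀ i, 0 < rw' ν T P P' k i n y := by
    intro i
    unfold rw'
    exact mul_pos (by positivity) (Finset.prod_pos fun b _ => div_pos (hpos _ k).2 (hpos _ k).1)
  have h5 : ∀ i ∈ range k, -ε * n + Real.log (pn ν T P n y) +
      (- (2 * k * Real.log K') + ∑ b ∈ range ((n - i) / k), F (i + b * k)) ≤
      Real.log (pn ν T P' n y) := by
    intro i hi
    have h6 := h1 i (mem_range.1 hi)
    have h7 := Real.log_le_log (by have := hrwpos i; positivity) h6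
    rw [Real.log_mul (by positivity) (hrwpos i).ne', Real.log_mul (by positivity) hp.ne',
      Real.log_exp, hrw] at h7
    exact h7
  have h6 := Finset.sum_le_sum h5
  simp only [Finset.sum_add_distrib, Finset.sum_const, card_range, nsmul_eq_mul] at h6
  have h7 := sum_blocks F hF0 k n hk
  have h8 : n * ((Hn ν T P k - Hn ν T P' k) - e / 4) < ∑ i ∈ range n, F i := by
    rw [lt_div_iff₀ hn0] at h3
    simp only [hF]
    linarith
  have h9 : (k : ℝ) * (-ε * n) = - (e / 4) * n := by
    rw [hε]; field_simp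
  have hfin : (k : ℝ) * (-δ * n + Real.log (pn ν T P n y)) ≤ k * Real.log (pn ν T P' n y) := by
    have h10 : (k : ℝ) * δ = e + D := by rw [he]; ring
    have h11 : (k : ℝ) * (-δ * n) = - (e + D) * n := by rw [← h10]; ring
    have h12 : (Hn ν T P k - Hn ν T P' k) = - D := by rw [hD]; ring
    rw [h12] at h8
    nlinarith
  have h13 := le_of_mul_le_mul_left hfin hk0
  calc Real.exp (-δ * n) * pn ν T P n y = Real.exp (-δ * n + Real.log (pn ν T P n y)) := by
        rw [Real.exp_add, Real.exp_log hp]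
    _ ≤ Real.exp (Real.log (pn ν T P' n y)) := Real.exp_le_exp.2 h13
    _ = pn ν T P' n y := Real.exp_log hp'

end Pool.Agent.H93.PF
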