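import Pool.Agent.H93.PF.TargetsD

set_option autoImplicit false

open MeasureTheory Filter Topology Finset

namespace Pool.Agent.H93.PF

theorem seven_gg (L k : ℕ) (hL : 0 < L) : 7 * gg L k ≤ nn L (k + 1) := by
  cases k with
  | zero => simp only [gg, nn, pow_zero]; omega
  | succ k =>
    simp only [gg, nn]
    have : 7 * (2 * 16 ^ (k + 1) * L) = 14 * 16 ^ (k + 1) * L := by ring
    omega

/-- twice the sum of the first gaps -/
def sg (L : ℕ) : ℕ → ℕ
  | 0 => 0
  | k + 1 => sg L k + 2 * gg L k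

theorem sg_le (L : ℕ) (hL : 0 < L) : ∀ k, sg L (k + 1) + 2 * L ≤ nn L (k + 1) := by
  intro k
  induction k with
  | zero => simp only [sg, gg, nn, pow_zero]; omega
  | succ k ih =>
    have h1 : sg L (k + 1 + 1) = sg L (k + 1) + 2 * gg L (k + 1) := rfl
    have h2 : gg L (k + 1) = 2 * 16 ^ (k + 1) * L := rfl
    have h3 : nn L (k + 1) = 14 * 16 ^ k * L := rfl
    have h4 : nn L (k + 1 + 1) = 14 * 16 ^ (k + 1) * L := rfl
    have h5 : 16 ^ (k + 1) = 16 * 16 ^ k := by ring
    rw [h1, h2, h4, h5]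
    rw [h3] at ih
    have h6 : 2 * (2 * (16 * 16 ^ k) * L) = 64 * (16 ^ k * L) := by ring
    have h7 : 14 * (16 * 16 ^ k) * L = 224 * (16 ^ k * L) := by ring
    have h8 : 14 * 16 ^ k * L = 14 * (16 ^ k * L) := by ring
    rw [h6, h7]
    rw [h8] at ih
    omega

theorem Nx.shift {B : Set ℤ} {q g : ℕ} {a b j : ℤ} (hQ : QI B q a b) (ha : a ≤ j)
    (hb : j + g + q < b) (h : Nx B j g) : Nx B (j + q) g := by
  obtain ⟨h1, h2, h3⟩ := h
  refine ⟨h1, ?_, ?_⟩
  · have := (hQ (j + g) (by omega) (by omega)).1 h2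
    rwa [show j + (q : ℤ) + g = j + g + q by ring]
  · intro i hi hi' hB
    have h4 := (hQ (i - q) (by omega) (by omega)).2 (by rwa [sub_add_cancel])
    exact h3 (i - q) (by omega) (by omega) h4

theorem pf_SKF (hSKD : T_SKD) (hSKR : T_SKR) (hSKS : T_SKS) : T_SKF := by
  intro L B c hS hL q a b hq hQ hc h3 h4
  have hq0 : 0 < q := by omega
  have P : ∀ K : ℕ, QI (B K) q a (b - sg L K) ∧
      (∀ j ∈ B K, a ≤ j → j + q < b - sg L K → c (j + q) = c j) ∧
      ∃ j ∈ B K, a ≤ j ∧ j + q < b - sg L K := by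
    intro K
    induction K with
    | zero =>
      have e : b - (sg L 0 : ℤ) = b := by simp [sg]
      rw [e]
      refine ⟨hQ, hc, ?_⟩
      obtain ⟨s, hs, h5, h6, -⟩ := (hSKD L B c hS hL 0).2.1 a
      have : (gg L 0 : ℤ) = L + 1 := by simp [gg]
      exact ⟨s, hs, h5, by omega⟩
    | succ K ih =>
      obtain ⟨i1, i2, j, hj, ij1, ij2⟩ := ih
      obtain ⟨d1, d2, d3⟩ := hSKD L B c hS hL K
      have hjq : j + q ∈ B K := (i1 j ij1 ij2).1 hj
      have hqK : nn L K ≤ q := by
        have := d1 j hj (j + q) hjq (by omega)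
        omega
      have hbK : a + 3 * q ≤ b - sg L K := by
        cases K with
        | zero => simpa [sg] using h3
        | succ K =>
          have := sg_le L hL K
          omega
      obtain ⟨y, hy, hy1, hy2, hy3⟩ := hSKS L B c hS hL K q a (b - sg L K) hq0 i1 i2 hbK
        ⟨j, hj, ij1, ij2⟩
      obtain ⟨d1', -, -⟩ := hSKD L B c hS hL (K + 1)
      have hqK1 : nn L (K + 1) ≤ q := by
        have := d1' y hy (y + q) hy2 (by omega)
        omega
      have h7 := seven_gg L K hL
      have hsg : (sg L (K + 1) : ℤ) = sg L K + 2 * gg L K := by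
        change ((sg L K + 2 * gg L K : ℕ) : ℤ) = _
        push_cast; ring
      refine ⟨?_, ?_, y, hy, hy1, ?_⟩
      · intro t ht ht'
        rw [hsg] at ht'
        have main : t ∈ B K → (t ∈ B (K + 1) ↔ t + q ∈ B (K + 1)) := by
          intro htK
          obtain ⟨g₁, -, hg1, hN1⟩ := hS.next K t htK
          obtain ⟨g₂, -, hg2, hN2⟩ := hS.next K (t + g₁) hN1.2.1
          have htq : t + q ∈ B K := (i1 t ht (by omega)).1 htK
          have hN1' : Nx (B K) (t + q) g₁ := Nx.shift i1 ht (by omega) hN1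
          have hN2' : Nx (B K) (t + q + g₁) g₂ := by
            have := Nx.shift i1 (j := t + g₁) (by omega) (by omega) hN2
            rwa [show t + (q : ℤ) + g₁ = t + g₁ + q by ring]
          have e1 : c (t + q + g₁) = c (t + g₁) := by
            have := i2 (t + g₁) hN1.2.1 (by omega) (by omega)
            rwa [show t + (q : ℤ) + g₁ = t + g₁ + q by ring]
          have e2 : c (t + q + g₁ + g₂) = c (t + g₁ + g₂) := by
            have := i2 (t + g₁ + g₂) hN2.2.1 (by omega) (by omega)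
            rwa [show t + (q : ℤ) + g₁ + g₂ = t + g₁ + g₂ + q by ring]
          rw [hSKR L B c hS hL K t g₁ g₂ htK hN1 hN2, hSKR L B c hS hL K (t + q) g₁ g₂ htq hN1' hN2',
            e1, e2]
        constructor
        · intro h
          exact (main (hS.nest K h)).1 h
        · intro h
          exact (main ((i1 t ht (by omega)).2 (hS.nest K h))).2 h
      · intro t ht ht1 ht2
        exact i2 t (hS.nest K ht) ht1 (by rw [hsg] at ht2; omega)
      · rw [hsg]; omega
  obtain ⟨i1, -, j, hj, ij1, ij2⟩ := P (q + 1)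
  have hjq : j + q ∈ B (q + 1) := (i1 j ij1 ij2).1 hj
  have := (hSKD L B c hS hL (q + 1)).1 j hj (j + q) hjq (by omega)
  have h5 : nn L (q + 1) ≤ q := by omega
  have h6 : nn L (q + 1) = 14 * 16 ^ q * L := rfl
  have h7 : q < 16 ^ q := Nat.lt_pow_self (by norm_num)
  have h8 : 16 ^ q ≤ 14 * 16 ^ q * L := by
    calc 16 ^ q = 16 ^ q * 1 := by ring
      _ ≤ 16 ^ q * (14 * L) := Nat.mul_le_mul_left _ (by omega)
      _ = 14 * 16 ^ q * L := by ring
  omega

end Pool.Agent.H93.PF
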