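import Pool.Agent.H93.PF.TargetsD

set_option autoImplicit false

open MeasureTheory Filter Topology Finset

namespace Pool.Agent.H93.PF

theorem pf_SKM (_hSKD : T_SKD) : T_SKM := by
  intro L B c hS hL k
  have main : ∀ (n : ℕ) (s t : ℤ), (t - s).toNat ≤ n → s ∈ B k → t ∈ B k → s < t →
      (∀ j, s ≤ j → j ≤ t → j ∉ B (k + 1)) → (c s).2 < (c t).2 := by
    intro n
    induction n with
    | zero => intro s t h; omega
    | succ n ih =>
      intro s t hn hs ht hst hno
      obtain ⟨g, -, -, hN⟩ := hS.next k s hs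
      have h1 := hN.1
      have hgt : s + g ≤ t := by
        by_contra hc
        exact hN.2.2 t hst (by omega) ht
      have h2 := hS.suc k s g hs (hno s le_rfl hst.le) hN (hno _ (by omega) hgt)
      rcases eq_or_lt_of_le hgt with h3 | h3
      · rw [← h3, h2]; omega
      · have := ih (s + g) t (by omega) hN.2.1 ht h3 (fun j hj hj' => hno j (by omega) hj')
        omega
  intro s t hs ht hst hno
  exact main _ s t le_rfl hs ht hst hno

theorem pf_MUL (hGBD : T_GBD) (hGLU : T_GLU) : T_MUL := by
  classical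
  intro d m θ κ hT i j
  have h1 : (GG d m i).card * (GG d m j).card ≤ (FF d m (i + j)).card := by
    rw [← Finset.card_product]
    refine Finset.card_le_card_of_injOn (fun p => Fin.append p.1 p.2) ?_ ?_
    · intro p hp
      have hp' := Finset.mem_product.1 hp
      simp only [GG, Finset.mem_filter, Finset.mem_univ, true_and] at hp'
      have := hGLU (Fin d) m i j p.1 p.2 hT.four hp'.1 hp'.2
      simpa [FF] using this
    · intro p _ p' _ he
      have := (Fin.appendEquiv i j (α := Fin d)).injective
      exact this he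
  have h2 := hGBD d m θ κ hT i
  have h3 := hGBD d m θ κ hT j
  have h4 : (((GG d m i).card * (GG d m j).card : ℕ) : ℝ) ≤ ((FF d m (i + j)).card : ℝ) := by
    exact_mod_cast h1
  push_cast at h4
  have h5 : 0 ≤ κ * ((FF d m i).card : ℝ) := mul_nonneg hT.ka.le (Nat.cast_nonneg _)
  have h6 : 0 ≤ κ * ((FF d m j).card : ℝ) := mul_nonneg hT.ka.le (Nat.cast_nonneg _)
  calc κ ^ 2 * (((FF d m i).card : ℝ) * ((FF d m j).card : ℝ))
      = (κ * ((FF d m i).card : ℝ)) * (κ * ((FF d m j).card : ℝ)) := by ring
    _ ≤ ((GG d m i).card : ℝ) * ((GG d m j).card : ℝ) := mul_le_mul h2 h3 h6 (h5.trans h2)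
    _ ≤ _ := h4

end Pool.Agent.H93.PF
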