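import Pool.Agent.H93.PF.TargetsD

set_option autoImplicit false

open MeasureTheory Filter Topology Finset

namespace Pool.Agent.H93.PF

theorem meas_pieces {Y ι β : Type} [MeasurableSpace Y] [MeasurableSpace β] [Countable ι]
    [MeasurableSpace ι] [MeasurableSingletonClass ι] {g : Y → ι} (hg : Measurable g)
    (F : ι → Y → β) (hF : ∀ c, Measurable (F c)) : Measurable fun y => F (g y) y := by
  have h1 : Measurable (fun p : ι × Y => F p.1 p.2) := measurable_from_prod_countable_right hF
  exact h1.comp (hg.prodMk measurable_id)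

theorem pf_X2M (hMES : T_MES) (hME2 : T_ME2) (hM1M : T_M1M) : T_X2M := by
  classical
  intro Y _ T L D K P code msg q hP hD
  obtain ⟨hla, hBk⟩ := hMES Y T
  obtain ⟨hbi, hlv⟩ := hME2 Y T
  have hB := (hBk L D hD).1
  have hfm : ∀ j, Measurable (fm T L D P code j) := by
    intro j
    have hG : ∀ c : ℕ × ℕ × ℕ, Measurable fun y =>
        code j (c.1 + c.2.1) (fun i : Fin (c.1 + c.2.1) =>
          P (j + 1) (zp T (((i : ℕ) : ℤ) - (c.1 : ℤ)) y)) c.2.2 := by
      intro c
      have h1 : Measurable fun y => (fun i : Fin (c.1 + c.2.1) =>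
          P (j + 1) (zp T (((i : ℕ) : ℤ) - (c.1 : ℤ)) y)) :=
        measurable_pi_iff.2 fun i => (hP (j + 1)).comp (measurable_zp T _)
      exact (measurable_of_finite (fun w : Fin (c.1 + c.2.1) → Fin (K (j + 1)) =>
        code j (c.1 + c.2.1) w c.2.2)).comp h1
    have h2 : Measurable fun y => (la T (D (j + 1)) y, na T (D (j + 1)) y,
        bi T (Bk T L D (j + 1)) (D (j + 1)) y) :=
      (hla _ (hD _)).1.prodMk ((hla _ (hD _)).2.1.prodMk (hbi _ _ (hB _) (hD _)).1)
    have h3 := meas_pieces h2 _ hG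
    have h4 : Measurable fun y : Y => if y ∈ D (j + 1) then (1 : ℕ) else 0 :=
      Measurable.ite (hD _) measurable_const measurable_const
    exact h4.add (h3.const_mul 2)
  have hxm : Measurable (xm T L D P code) := by
    refine meas_pieces (hlv L D hD)
      (fun j y => fm T L D P code j (zp T (-(pa T (Bk T L D j) y : ℤ)) y)) ?_
    intro j
    exact (hfm j).comp (hbi _ _ (hB j) (hB j)).2
  exact hxm.add ((hM1M Y T (K 0) L (P 0) (D 0) msg (hP 0) (hD 0)).const_mul q)

end Pool.Agent.H93.PF
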