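import Pool.Agent.H1.PF.GLU
import Pool.Agent.H11.PF.GRO
import Pool.Agent.H13.PF.MSG
import Pool.Agent.H20.PF.BKF
import Pool.Agent.H33.PF.XMA
import Pool.Agent.H34.PF.B0F
import Pool.Agent.H34.PF.BIX
import Pool.Agent.H34.PF.HNB
import Pool.Agent.H34.PF.M1M
import Pool.Agent.H34.PF.MAR
import Pool.Agent.H34.PF.ME2
import Pool.Agent.H34.PF.MEX
import Pool.Agent.H34.PF.OCC
import Pool.Agent.H34.PF.SKR
import Pool.Agent.H34.PF.TH2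
import Pool.Agent.H39.PF.ZTI
import Pool.Agent.H4.PF.CAR
import Pool.Agent.H4.PF.CX2
import Pool.Agent.H4.PF.DS2
import Pool.Agent.H4.PF.FAC
import Pool.Agent.H4.PF.INV
import Pool.Agent.H4.PF.MES
import Pool.Agent.H4.PF.PAR
import Pool.Agent.H4.PF.RBC
import Pool.Agent.H4.PF.RBI
import Pool.Agent.H4.PF.SKC
import Pool.Agent.H4.PF.SML
import Pool.Agent.H41.PF.LNB
import Pool.Agent.H49.PF.ENT
import Pool.Agent.H49.PF.HMO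
import Pool.Agent.H49.PF.REC
import Pool.Agent.H49.PF.RQS
import Pool.Agent.H49.PF.SKD
import Pool.Agent.H49.PF.ZME
import Pool.Agent.H68.PF.GBD
import Pool.Agent.H74.PF.TAU
import Pool.Agent.H78.PF.CNT
import Pool.Agent.H78.PF.PSQ
import Pool.Agent.H78.PF.SKS
import Pool.Agent.H78.PF.TH3
import Pool.Agent.H79.PF.PA2
import Pool.Agent.H93.PF.BKT
import Pool.Agent.H93.PF.COD
import Pool.Agent.H93.PF.ENC
import Pool.Agent.H93.PF.GTH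
import Pool.Agent.H93.PF.ISO
import Pool.Agent.H93.PF.M1B
import Pool.Agent.H93.PF.M1D
import Pool.Agent.H93.PF.MMF
import Pool.Agent.H93.PF.PFR
import Pool.Agent.H93.PF.PJA
import Pool.Agent.H93.PF.REX
import Pool.Agent.H93.PF.RSM
import Pool.Agent.H93.PF.SKF
import Pool.Agent.H93.PF.SKM
import Pool.Agent.H93.PF.X2M

/-!
# Power-free shifts (`MP_32ebde_an`): assembly
-/

set_option autoImplicit false

namespace Pool.Agent.H93.PF.All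

theorem r_MMF : Pool.Agent.H93.PF.T_MMF :=
  Pool.Agent.H93.PF.pf_MMF

theorem r_TH2 : Pool.Agent.H93.PF.T_TH2 :=
  Pool.Agent.H34.PF.pf_TH2 r_MMF

theorem r_TH3 : Pool.Agent.H93.PF.T_TH3 :=
  Pool.Agent.H78.PF.pf_TH3 r_MMF

theorem r_GRO : Pool.Agent.H93.PF.T_GRO :=
  Pool.Agent.H11.PF.pf_GRO

theorem r_ENT : Pool.Agent.H93.PF.T_ENT :=
  Pool.Agent.H49.PF.pf_ENT r_MMF

theorem r_GBD : Pool.Agent.H93.PF.T_GBD :=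
  Pool.Agent.H68.PF.pf_GBD r_GRO

theorem r_MEX : Pool.Agent.H93.PF.T_MEX :=
  Pool.Agent.H34.PF.pf_MEX r_GRO r_GBD

theorem r_GLU : Pool.Agent.H93.PF.T_GLU :=
  Pool.Agent.H1.PF.pf_GLU

theorem r_MUL : Pool.Agent.H93.PF.T_MUL :=
  Pool.Agent.H93.PF.pf_MUL r_GBD r_GLU

theorem r_FAC : Pool.Agent.H93.PF.T_FAC :=
  Pool.Agent.H4.PF.pf_FAC r_GRO r_MUL

theorem r_HCN : Pool.Agent.H93.PF.T_HCN :=
  Pool.Agent.H4.PF.pf_HCN r_GBD r_FAC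

theorem r_PAR : Pool.Agent.H93.PF.T_PAR :=
  Pool.Agent.H4.PF.pf_PAR r_MEX r_HCN

theorem r_PA2 : Pool.Agent.H93.PF.T_PA2 :=
  Pool.Agent.H79.PF.pf_PA2 r_PAR

theorem r_HNB : Pool.Agent.H93.PF.T_HNB :=
  Pool.Agent.H34.PF.pf_HNB

theorem r_HMO : Pool.Agent.H93.PF.T_HMO :=
  Pool.Agent.H49.PF.pf_HMO r_HNB

theorem r_PSQ : Pool.Agent.H93.PF.T_PSQ :=
  Pool.Agent.H78.PF.pf_PSQ r_HNB r_HMO

theorem r_RQS : Pool.Agent.H93.PF.T_RQS :=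
  Pool.Agent.H49.PF.pf_RQS

theorem r_RBC : Pool.Agent.H93.PF.T_RBC :=
  Pool.Agent.H4.PF.pf_RBC r_RQS

theorem r_RBI : Pool.Agent.H93.PF.T_RBI :=
  Pool.Agent.H4.PF.pf_RBI

theorem r_REX : Pool.Agent.H93.PF.T_REX :=
  Pool.Agent.H93.PF.pf_REX r_HNB

theorem r_RSM : Pool.Agent.H93.PF.T_RSM :=
  Pool.Agent.H93.PF.pf_RSM r_RBC r_RBI r_REX

theorem r_SMU : Pool.Agent.H93.PF.T_SMU :=
  Pool.Agent.H93.PF.pf_SMU r_RSM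

theorem r_MAR : Pool.Agent.H93.PF.T_MAR :=
  Pool.Agent.H34.PF.pf_MAR

theorem r_DS2 : Pool.Agent.H93.PF.T_DS2 :=
  Pool.Agent.H4.PF.pf_DS2 r_SMU r_RSM r_MAR

theorem r_CAR : Pool.Agent.H93.PF.T_CAR :=
  Pool.Agent.H4.PF.pf_CAR

theorem r_TAU : Pool.Agent.H93.PF.T_TAU :=
  Pool.Agent.H74.PF.pf_TAU

theorem r_MSG : Pool.Agent.H93.PF.T_MSG :=
  Pool.Agent.H13.PF.pf_MSG r_TAU

theorem r_COD : Pool.Agent.H93.PF.T_COD :=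
  Pool.Agent.H93.PF.pf_COD

theorem r_FIB : Pool.Agent.H93.PF.T_FIB :=
  Pool.Agent.H4.PF.pf_FIB

theorem r_ENC : Pool.Agent.H93.PF.T_ENC :=
  Pool.Agent.H93.PF.pf_ENC

theorem r_MES : Pool.Agent.H93.PF.T_MES :=
  Pool.Agent.H4.PF.pf_MES

theorem r_M1M : Pool.Agent.H93.PF.T_M1M :=
  Pool.Agent.H34.PF.pf_M1M r_MES

theorem r_ME2 : Pool.Agent.H93.PF.T_ME2 :=
  Pool.Agent.H34.PF.pf_ME2 r_MES

theorem r_X2M : Pool.Agent.H93.PF.T_X2M :=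
  Pool.Agent.H93.PF.pf_X2M r_MES r_ME2 r_M1M

theorem r_X2B : Pool.Agent.H93.PF.T_X2B :=
  Pool.Agent.H93.PF.pf_X2B

theorem r_LNB : Pool.Agent.H93.PF.T_LNB :=
  Pool.Agent.H41.PF.pf_LNB

theorem r_B0F : Pool.Agent.H93.PF.T_B0F :=
  Pool.Agent.H34.PF.pf_B0F r_LNB r_TAU

theorem r_BKT : Pool.Agent.H93.PF.T_BKT :=
  Pool.Agent.H93.PF.pf_BKT r_LNB

theorem r_BKF : Pool.Agent.H93.PF.T_BKF :=
  Pool.Agent.H20.PF.pf_BKF r_LNB r_TAU r_B0F r_BKT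

theorem r_M1B : Pool.Agent.H93.PF.T_M1B :=
  Pool.Agent.H93.PF.pf_M1B r_LNB r_TAU r_B0F r_BKF

theorem r_M1D : Pool.Agent.H93.PF.T_M1D :=
  Pool.Agent.H93.PF.pf_M1D r_LNB r_TAU r_B0F r_BKF

theorem r_SKD : Pool.Agent.H93.PF.T_SKD :=
  Pool.Agent.H49.PF.pf_SKD

theorem r_SKR : Pool.Agent.H93.PF.T_SKR :=
  Pool.Agent.H34.PF.pf_SKR r_SKD

theorem r_CNT : Pool.Agent.H93.PF.T_CNT :=
  Pool.Agent.H78.PF.pf_CNT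

theorem r_IXA : Pool.Agent.H93.PF.T_IXA :=
  Pool.Agent.H93.PF.pf_IXA

theorem r_SKC : Pool.Agent.H93.PF.T_SKC :=
  Pool.Agent.H4.PF.pf_SKC r_LNB r_BKF r_CNT r_IXA

theorem r_BKA : Pool.Agent.H93.PF.T_BKA :=
  Pool.Agent.H93.PF.pf_BKA r_SKD r_SKR r_BKF r_SKC

theorem r_XMA : Pool.Agent.H93.PF.T_XMA :=
  Pool.Agent.H33.PF.pf_XMA r_LNB r_BKF

theorem r_DJA : Pool.Agent.H93.PF.T_DJA :=
  Pool.Agent.H93.PF.pf_DJA r_BKF r_XMA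

theorem r_BIX : Pool.Agent.H93.PF.T_BIX :=
  Pool.Agent.H34.PF.pf_BIX r_LNB r_BKF

theorem r_PJA : Pool.Agent.H93.PF.T_PJA :=
  Pool.Agent.H93.PF.pf_PJA r_LNB r_DJA r_BIX

theorem r_CX2 : Pool.Agent.H93.PF.T_CX2 :=
  Pool.Agent.H4.PF.pf_CX2 r_GRO r_ENT r_PA2 r_PSQ r_DS2 r_CAR r_MSG r_COD r_FIB r_ENC r_M1M r_X2M r_X2B r_M1B r_M1D r_BKA r_PJA

theorem r_REC : Pool.Agent.H93.PF.T_REC :=
  Pool.Agent.H49.PF.pf_REC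

theorem r_ZME : Pool.Agent.H93.PF.T_ZME :=
  Pool.Agent.H49.PF.pf_ZME r_MES

theorem r_ZTI : Pool.Agent.H93.PF.T_ZTI :=
  Pool.Agent.H39.PF.pf_ZTI r_LNB r_BKF

theorem r_OCC : Pool.Agent.H93.PF.T_OCC :=
  Pool.Agent.H34.PF.pf_OCC

theorem r_SML : Pool.Agent.H93.PF.T_SML :=
  Pool.Agent.H4.PF.pf_SML r_OCC

theorem r_INV : Pool.Agent.H93.PF.T_INV :=
  Pool.Agent.H4.PF.pf_INV r_OCC

theorem r_SKM : Pool.Agent.H93.PF.T_SKM :=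
  Pool.Agent.H93.PF.pf_SKM r_SKD

theorem r_SKS : Pool.Agent.H93.PF.T_SKS :=
  Pool.Agent.H78.PF.pf_SKS r_SKD r_SKR r_SKM

theorem r_SKF : Pool.Agent.H93.PF.T_SKF :=
  Pool.Agent.H93.PF.pf_SKF r_SKD r_SKR r_SKS

theorem r_PFR : Pool.Agent.H93.PF.T_PFR :=
  Pool.Agent.H93.PF.pf_PFR r_MMF r_SML r_INV r_SKF

theorem r_ZPF : Pool.Agent.H93.PF.T_ZPF :=
  Pool.Agent.H93.PF.pf_ZPF r_ZTI r_SKC r_PFR

theorem r_ZIN : Pool.Agent.H93.PF.T_ZIN :=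
  Pool.Agent.H93.PF.pf_ZIN r_OCC r_ZTI

theorem r_ISO : Pool.Agent.H93.PF.T_ISO :=
  Pool.Agent.H93.PF.pf_ISO

theorem r_GTH : Pool.Agent.H93.PF.T_GTH :=
  Pool.Agent.H93.PF.pf_GTH r_REC r_ZME r_ZPF r_ZIN r_ISO

theorem r_FT2 : Pool.Agent.H93.PF.T_FT2 :=
  Pool.Agent.H93.PF.pf_FT2 r_TH2 r_TH3 r_CX2 r_GTH

end Pool.Agent.H93.PF.All
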