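import Mathlib

/-!
# Power-free shifts (`MP_32ebde_an`): definitions

The paper proof is the page `H93_PF.md` of the team store.
-/

set_option autoImplicit false

open MeasureTheory Filter Topology Finset

namespace Pool.Agent.H93.PF

/-! ### 1. The question -/

/-- A repetition with period `q` and length `m`, i.e. a power of exponent `m / q`, is forbidden:
the exponent is at least `β` (`plus = false`) or larger than `β` (`plus = true`). -/
def Forb (β : ℝ) (plus : Bool) (q m : ℕ) : Prop :=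
  if plus = true then β * q < m else β * q ≤ m

/-- The `d`-ary `β`-free shift `X_β^d` (`plus = false`), and the `β⁺`-free shift
(`plus = true`): no finite subword `x[i, i + m)` has a period `q ≥ 1` for which the exponent
`m / q` is forbidden. -/
def PFS (d : ℕ) (β : ℝ) (plus : Bool) : Set (ℤ → Fin d) :=
  {x | ∀ (i : ℤ) (q m : ℕ), 0 < q → Forb β plus q m →
    ∃ j : ℤ, i ≤ j ∧ j + q < i + m ∧ x (j + q) ≠ x j}

/-- The left shift. -/
def sh {d : ℕ} (x : ℤ → Fin d) : ℤ → Fin d := fun n => x (n + 1)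

/-- The words of length `n` which occur in points of `X`. -/
def lang {d : ℕ} (X : Set (ℤ → Fin d)) (n : ℕ) : Set (Fin n → Fin d) :=
  {w | ∃ x ∈ X, ∃ i : ℤ, ∀ j : Fin n, w j = x (i + (j : ℕ))}

/-- The topological entropy of a shift space. -/
noncomputable def topEnt {d : ℕ} (X : Set (ℤ → Fin d)) : ℝ :=
  limsup (fun n : ℕ => Real.log ((lang X n).ncard : ℝ) / n) atTop

section entropy

variable {Y : Type} [MeasurableSpace Y]

/-- The cylinder of the word `w` for the partition `P`. -/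
def cyl (T : Y → Y) {K : ℕ} (P : Y → Fin K) {n : ℕ} (w : Fin n → Fin K) : Set Y :=
  {y | ∀ i : Fin n, P (T^[(i : ℕ)] y) = w i}

/-- The Shannon entropy of the partition `P` refined over the times `0, …, n - 1`. -/
noncomputable def Hn (ν : Measure Y) (T : Y → Y) {K : ℕ} (P : Y → Fin K) (n : ℕ) : ℝ :=
  ∑ w : Fin n → Fin K, Real.negMulLog (ν.real (cyl T P w))

/-- The entropy rate of the partition `P`. -/
noncomputable def entP (ν : Measure Y) (T : Y → Y) {K : ℕ} (P : Y → Fin K) : ℝ :=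
  limsup (fun n : ℕ => Hn ν T P n / n) atTop

/-- The Kolmogorov-Sinai entropy: the supremum over all finite measurable partitions. -/
noncomputable def ksEnt (ν : Measure Y) (T : Y → Y) : EReal :=
  ⨆ (K : ℕ) (P : Y → Fin K) (_ : Measurable P), ((entP ν T P : ℝ) : EReal)

/-- Isomorphism of measure preserving systems. -/
def Isom {X : Type} [MeasurableSpace X] (ν : Measure Y) (T : Y → Y) (μ : Measure X)
    (S : X → X) : Prop :=
  ∃ (f : Y → X) (g : X → Y), Measurable f ∧ Measurable g ∧ μ = ν.map f ∧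
    (∀ᵐ y ∂ν, f (T y) = S (f y)) ∧ (∀ᵐ y ∂ν, g (f y) = y) ∧ (∀ᵐ x ∂μ, f (g x) = x)

/-- The iterates of an invertible map, also the negative ones. -/
def zp (T : Y ≃ᵐ Y) (n : ℤ) (y : Y) : Y := ((T.toEquiv : Equiv.Perm Y) ^ n) y

end entropy

/-! ### 2. Words -/

section words

variable {A : Type}

/-- `w` has the period `q` on `[i, i + l)` -/
def Per {n : ℕ} (w : Fin n → A) (q i l : ℕ) : Prop :=
  ∀ (j : ℕ) (h : j + q < n), i ≤ j → j + q < i + l → w ⟨j + q, h⟩ = w ⟨j, by omega⟩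

/-- `w` has no forbidden repetition; `m q` is the least length of a forbidden repetition with
period `q` -/
def Gd (m : ℕ → ℕ) {n : ℕ} (w : Fin n → A) : Prop :=
  ∀ q i : ℕ, 0 < q → i + m q ≤ n → ¬ Per w q i (m q)

/-- the length of the prefixes and suffixes which are excluded -/
def pp (m : ℕ → ℕ) (q : ℕ) : ℕ := (m q + 1) / 2

/-- `w` has no forbidden repetition, and can be glued -/
def Ge (m : ℕ → ℕ) {n : ℕ} (w : Fin n → A) : Prop :=
  Gd m w ∧ ∀ q, 0 < q → pp m q ≤ n → ¬ Per w q 0 (pp m q) ∧ ¬ Per w q (n - pp m q) (pp m q)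

/-- the letters `M[a, a + l)` occur in `w` at the place `i` -/
def Occ {n R : ℕ} (w : Fin n → A) (i : ℕ) (M : Fin R → A) (a l : ℕ) : Prop :=
  ∀ (j : ℕ) (h : i + j < n) (h' : a + j < R), j < l → w ⟨i + j, h⟩ = M ⟨a + j, h'⟩

open Classical in
/-- words without forbidden repetitions -/
noncomputable def FF (d : ℕ) (m : ℕ → ℕ) (n : ℕ) : Finset (Fin n → Fin d) :=
  univ.filter fun w => Gd m w

open Classical in
/-- words which can be glued -/
noncomputable def GG (d : ℕ) (m : ℕ → ℕ) (n : ℕ) : Finset (Fin n → Fin d) :=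
  univ.filter fun w => Ge m w

open Classical in
/-- the contents of the tiles: words which can be glued and which contain neither the first nor
the last half of the separator `M` -/
noncomputable def HH (d : ℕ) (m : ℕ → ℕ) {R : ℕ} (M : Fin R → Fin d) (n : ℕ) :
    Finset (Fin n → Fin d) :=
  univ.filter fun w => Ge m w ∧ ∀ i, i + (R + 1) / 2 ≤ n →
    ¬ Occ w i M 0 ((R + 1) / 2) ∧ ¬ Occ w i M (R - (R + 1) / 2) ((R + 1) / 2)

/-- the conditions on the thresholds -/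
structure Thr (d : ℕ) (m : ℕ → ℕ) (θ κ : ℝ) : Prop where
  four : ∀ q, 0 < q → 4 * q < m q
  th : 3 / 2 ≤ θ
  ka : 0 < κ
  ka1 : κ ≤ 1
  c1 : ∀ N : ℕ, θ + ∑ q ∈ Icc 1 N, (θ ^ (m q - q - 1))⁻¹ ≤ d
  c2 : ∀ N : ℕ, 2 * ∑ q ∈ Icc 1 N, (θ ^ (pp m q - q))⁻¹ ≤ 1 - κ

/-- the least length of a forbidden repetition with period `q` -/
noncomputable def mm (β : ℝ) (plus : Bool) (q : ℕ) : ℕ :=
  if plus = true then ⌊β * q⌋₊ + 1 else ⌈β * q⌉₊

/-- the word of `z` in the window `[i, i + n)` -/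
def win (z : ℤ → A) (i : ℤ) (n : ℕ) : Fin n → A := fun j => z (i + (j : ℕ))

end words

/-! ### 3. Tilings -/

/-- `s + g` is the next point of `B` after `s` -/
def Nx (B : Set ℤ) (s : ℤ) (g : ℕ) : Prop :=
  0 < g ∧ s + g ∈ B ∧ ∀ i, s < i → i < s + g → i ∉ B

/-- the parameters of the tilings: length of the tiles `L` or `L + 1`, separator `M` -/
structure Tl (d : ℕ) (m : ℕ → ℕ) where
  four : ∀ q, 0 < q → 4 * q < m q
  R : ℕ
  L : ℕ
  R0 : 0 < R
  RL : 6 * R ≤ L
  M : Fin R → Fin d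
  Mg : Ge m M
  Mp : ∀ s, 0 < s → 2 * s ≤ R → ¬ Per M s 0 R

/-- `z` is tiled, the tiles start at the points of `B` -/
structure Tiled {d : ℕ} {m : ℕ → ℕ} (c : Tl d m) (B : Set ℤ) (z : ℤ → Fin d) : Prop where
  below : ∀ i : ℤ, ∃ s ∈ B, s ≤ i
  next : ∀ s ∈ B, ∃ g : ℕ, (g = c.L ∨ g = c.L + 1) ∧ Nx B s g
  mark : ∀ s ∈ B, ∀ j : Fin c.R, z (s + (j : ℕ)) = c.M j
  cont : ∀ s ∈ B, ∀ g : ℕ, Nx B s g → win z (s + c.R) (g - c.R) ∈ HH d m c.M (g - c.R)

/-! ### 4. The skeleton -/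

/-- lower bound for the gaps of the level `k` -/
def nn (L : ℕ) : ℕ → ℕ
  | 0 => L
  | k + 1 => 14 * 16 ^ k * L

/-- upper bound for the gaps of the level `k` -/
def gg (L : ℕ) : ℕ → ℕ
  | 0 => L + 1
  | k + 1 => 2 * 16 ^ (k + 1) * L

/-- nested sets with the colours -/
structure Sk (L : ℕ) (B : ℕ → Set ℤ) (c : ℤ → ℕ × ℕ) : Prop where
  nest : ∀ k, B (k + 1) ⊆ B k
  below : ∀ k (i : ℤ), ∃ s ∈ B k, s ≤ i
  next : ∀ k, ∀ s ∈ B k, ∃ g : ℕ, nn L k ≤ g ∧ g ≤ gg L k ∧ Nx (B k) s g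
  lev : ∀ k, ∀ s ∈ B k, s ∉ B (k + 1) → (c s).1 = k % 3
  pos : ∀ k, ∀ s ∈ B k, s ∉ B (k + 1) → 1 ≤ (c s).2
  one : ∀ (k : ℕ) (s : ℤ) (g : ℕ), s ∈ B (k + 1) → Nx (B k) s g → s + g ∉ B (k + 1) →
    (c (s + g)).2 = 1
  suc : ∀ (k : ℕ) (s : ℤ) (g : ℕ), s ∈ B k → s ∉ B (k + 1) → Nx (B k) s g →
    s + g ∉ B (k + 1) → (c (s + g)).2 = (c s).2 + 1

/-- `B` is invariant under the translation by `q`, inside of `[a, b)` -/
def QI (B : Set ℤ) (q : ℕ) (a b : ℤ) : Prop := ∀ j, a ≤ j → j + q < b → (j ∈ B ↔ j + q ∈ B)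

/-! ### 5. Markers -/

/-- number of the long pieces (`L + 1`) of a gap of length `r` -/
def nv (L r : ℕ) : ℕ := r % L

/-- number of the short pieces (`L`) of a gap of length `r` -/
def nu (L r : ℕ) : ℕ := (r - r % L * (L + 1)) / L

/-- number of the pieces -/
def nt (L r : ℕ) : ℕ := nu L r + nv L r

/-- start of the piece `i` -/
def tau (L r i : ℕ) : ℕ := i * L + (i - nu L r)

section markers

variable {Y : Type} [MeasurableSpace Y] (T : Y ≃ᵐ Y)

/-- the times at which the orbit of `y` is in `S` -/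
def ob (S : Set Y) (y : Y) : Set ℤ := {n | zp T n y ∈ S}

/-- time since the last visit in `S` (`0` if `y` is in `S`) -/
noncomputable def la (S : Set Y) (y : Y) : ℕ := sInf {a : ℕ | zp T (-(a : ℤ)) y ∈ S}

/-- time until the next visit in `S` -/
noncomputable def na (S : Set Y) (y : Y) : ℕ := sInf {b : ℕ | 1 ≤ b ∧ zp T (b : ℤ) y ∈ S}

/-- time since the previous visit in `S` -/
noncomputable def pa (S : Set Y) (y : Y) : ℕ := sInf {b : ℕ | 1 ≤ b ∧ zp T (-(b : ℤ)) y ∈ S}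

/-- the marker sets -/
noncomputable def Bk (L : ℕ) (D : ℕ → Set Y) : ℕ → Set Y
  | 0 => {y | ∃ i, i < nt L (la T (D 0) y + na T (D 0) y) ∧
      la T (D 0) y = tau L (la T (D 0) y + na T (D 0) y) i}
  | k + 1 => {y | y ∈ Bk L D k ∧ ∃ i : ℕ, i * (16 ^ (k + 1) * L) ≤ la T (D (k + 1)) y ∧
      la T (D (k + 1)) y < pa T (Bk L D k) y + i * (16 ^ (k + 1) * L) ∧
      (i + 1) * (16 ^ (k + 1) * L) ≤ la T (D (k + 1)) y + na T (D (k + 1)) y}

/-- the exact level -/
noncomputable def lv (L : ℕ) (D : ℕ → Set Y) (y : Y) : ℕ := sInf {k | y ∉ Bk T L D (k + 1)}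

open Classical in
/-- the index among the points of the same level -/
noncomputable def ix (L : ℕ) (D : ℕ → Set Y) (y : Y) : ℕ :=
  ((range (la T (Bk T L D (lv T L D y + 1)) y)).filter
    fun j => zp T (-(j : ℤ)) y ∈ Bk T L D (lv T L D y)).card

/-- the colour -/
noncomputable def co (L : ℕ) (D : ℕ → Set Y) (y : Y) : ℕ × ℕ :=
  (lv T L D y % 3, min (ix T L D y) 39)

/-- the sparse marker sets -/
structure Mk (L : ℕ) (D : ℕ → Set Y) : Prop where
  two : 2 ≤ L
  nest : ∀ k, D (k + 1) ⊆ D k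
  ret0 : ∀ y ∈ D 0, ∀ i : ℕ, 0 < i → i < L ^ 2 → zp T (i : ℤ) y ∉ D 0
  ret : ∀ k, ∀ y ∈ D (k + 1), ∀ i : ℕ, 0 < i → i < 16 ^ (k + 1) * L →
    zp T (i : ℤ) y ∉ D (k + 1)

/-- all the sets are visited infinitely often in the future and in the past -/
def Rc (D : ℕ → Set Y) (y : Y) : Prop :=
  ∀ k n : ℕ, (∃ j : ℕ, n ≤ j ∧ zp T (j : ℤ) y ∈ D k) ∧ ∃ j : ℕ, n ≤ j ∧ zp T (-(j : ℤ)) y ∈ D k

end markers

/-! ### 6. The coding -/

/-- the index of the piece which starts at `a` in a gap of length `r` -/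
noncomputable def ti (L r a : ℕ) : ℕ := sInf {i | tau L r i = a}

/-- the data of the coding: `ms y` is the message of the tile which starts at `y` -/
structure Cx {Y : Type} [MeasurableSpace Y] (T : Y ≃ᵐ Y) (d : ℕ) (m : ℕ → ℕ) where
  tl : Tl d m
  D : ℕ → Set Y
  Dm : ∀ k, MeasurableSet (D k)
  mkD : Mk T tl.L D
  Q : ℕ → ℕ
  enc : (g : ℕ) → ℕ × ℕ → ℕ → (Fin (g - tl.R) → Fin d)
  encm : ∀ g, (g = tl.L ∨ g = tl.L + 1) → ∀ c k, c.1 < 3 → c.2 < 40 → k < Q g →
    enc g c k ∈ HH d m tl.M (g - tl.R)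
  enci : ∀ g, (g = tl.L ∨ g = tl.L + 1) → ∀ c k c' k', c.1 < 3 → c.2 < 40 → k < Q g →
    c'.1 < 3 → c'.2 < 40 → k' < Q g → enc g c k = enc g c' k' → c = c' ∧ k = k'
  ms : Y → ℕ
  msm : Measurable ms
  msb : ∀ y, Rc T D y → y ∈ Bk T tl.L D 0 → ms y < Q (na T (Bk T tl.L D 0) y)

namespace Cx

variable {Y : Type} [MeasurableSpace Y] {T : Y ≃ᵐ Y} {d : ℕ} {m : ℕ → ℕ} (c : Cx T d m)

/-- the starts of the tiles -/
noncomputable def B0 : Set Y := Bk T c.tl.L c.D 0

/-- the content of the tile which starts at `y` and has length `g` -/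
noncomputable def ct (g : ℕ) (y : Y) : Fin (g - c.tl.R) → Fin d :=
  c.enc g (co T c.tl.L c.D y) (c.ms y)

/-- the letter at the time `0` -/
noncomputable def z0 (y : Y) : Fin d :=
  if h : la T c.B0 y < c.tl.R then c.tl.M ⟨la T c.B0 y, h⟩ else
    if h' : la T c.B0 y - c.tl.R <
        na T c.B0 (zp T (-(la T c.B0 y : ℤ)) y) - c.tl.R then
      c.ct (na T c.B0 (zp T (-(la T c.B0 y : ℤ)) y)) (zp T (-(la T c.B0 y : ℤ)) y)
        ⟨la T c.B0 y - c.tl.R, h'⟩
    else c.tl.M ⟨0, c.tl.R0⟩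

/-- the coding map -/
noncomputable def phi (y : Y) : ℤ → Fin d := fun n => c.z0 (zp T n y)

/-- the tiles, the colours and the messages of `y` and `y'` agree -/
def Ag (y y' : Y) : Prop :=
  ob T c.B0 y = ob T c.B0 y' ∧ ∀ s ∈ ob T c.B0 y,
    co T c.tl.L c.D (zp T s y) = co T c.tl.L c.D (zp T s y') ∧
    c.ms (zp T s y) = c.ms (zp T s y')

end Cx

/-! ### 7. The messages -/

section messages

variable {Y : Type} [MeasurableSpace Y] (T : Y ≃ᵐ Y)

/-- the name of the gap of `S` which contains `y` -/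
noncomputable def nam {K : ℕ} (P : Y → Fin K) (S : Set Y) (y : Y) :
    Fin (la T S y + na T S y) → Fin K :=
  fun i => P (zp T (((i : ℕ) : ℤ) - (la T S y : ℤ)) y)

open Classical in
/-- the message of the tile which starts at `y`: a bit for the points of `D 0`, and a part of the
code of the name of the gap of `D 0` -/
noncomputable def ms1 {K : ℕ} (L : ℕ) (P : Y → Fin K) (S : Set Y)
    (msg : (r : ℕ) → (Fin r → Fin K) → ℕ → ℕ) (y : Y) : ℕ :=
  (if y ∈ S then 1 else 0) + 2 * msg (la T S y + na T S y) (nam T P S y)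
    (ti L (la T S y + na T S y) (la T S y))

end messages

end Pool.Agent.H93.PF
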