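import Pool.Agent.H93.PF.TargetsD

set_option autoImplicit false

open MeasureTheory Filter Topology Finset

namespace Pool.Agent.H93.PF

theorem pf_FTH (hTH2 : T_TH2) (hTH3 : T_TH3) (hHNB : T_HNB) (hCXE : T_CXE) (hGTH : T_GTH) :
    T_FTH := by
  intro d β plus hdb Y _ _ ν _ T hT hap ⟨K, P, G, hP, hG, hinj⟩ hent
  have h4 : 4 < β := by
    rcases hdb with h | h
    · linarith [h.2]
    · exact h.2
  have key : ∃ θ κ : ℝ, Thr d (mm β plus) θ κ := by
    by_cases hd : 3 ≤ d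
    · exact ⟨5 / 2, 1 / 6, hTH3 d β plus hd h4⟩
    · have hd2 : d = 2 ∧ 5 < β := by
        rcases hdb with h | h
        · exact ⟨by omega, h.2⟩
        · exact absurd h.1 hd
      obtain ⟨rfl, h5⟩ := hd2
      exact ⟨19 / 10, 1 / 6, hTH2 β plus h5⟩
  obtain ⟨θ, κ, hthr⟩ := key
  have hle : ((entP ν T P : ℝ) : EReal) ≤ ksEnt ν T :=
    le_iSup_of_le K (le_iSup_of_le P (le_iSup_of_le hP le_rfl))
  have hlt : entP ν T P < topEnt (PFS d β plus) := by
    exact_mod_cast lt_of_le_of_lt hle hent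
  obtain ⟨c, h1, h2, h3⟩ := hCXE Y ν T K P d β θ κ plus hT hap hP h4 hthr hlt
    (hHNB Y ν T K P hP).2.1
  refine hGTH d β plus Y ν T c G hT h4 h1 h2 hG ?_
  intro y hyG y' hyG' hy hy' hA
  exact hinj hyG hyG' (funext fun n => h3 y y' hy hy' hA n)

end Pool.Agent.H93.PF
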