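import Pool.Agent.H93.PF.TargetsD

set_option autoImplicit false

open MeasureTheory Filter Topology Finset

namespace Pool.Agent.H93.PF

theorem pf_GTH (hREC : T_REC) (hZME : T_ZME) (hZPF : T_ZPF) (hZIN : T_ZIN) (hISO : T_ISO) :
    T_GTH := by
  intro d β plus Y _ _ ν _ T c G hT hβ hRL hD hG hdec
  have hR : ∀ᵐ y ∂ν, Rc T c.D y := by
    have : ∀ k, ∀ᵐ y ∂ν, ∀ n : ℕ, (∃ j : ℕ, n ≤ j ∧ zp T (j : ℤ) y ∈ c.D k) ∧
        ∃ j : ℕ, n ≤ j ∧ zp T (-(j : ℤ)) y ∈ c.D k :=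
      fun k => hREC Y ν T (c.D k) hT (c.Dm k) (hD k)
    filter_upwards [ae_all_iff.2 this] with y hy k n
    exact hy k n
  refine hISO Y ν T d c.phi {y | y ∈ G ∧ Rc T c.D y} (PFS d β plus) hT.toMeasurePreserving
    ?_ ?_ ?_ ?_ ?_
  · refine measurable_pi_iff.2 fun n => ?_
    exact (hZME Y T d (mm β plus) c).comp (measurable_zp T n)
  · intro y
    funext n
    change c.z0 (zp T n (T y)) = c.z0 (zp T (n + 1) y)
    rw [zp_succ]
  · filter_upwards [hG, hR] with y h1 h2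
    exact ⟨h1, h2⟩
  · intro y hy y' hy' he
    exact hdec y hy.1 y' hy'.1 hy.2 hy'.2 (hZIN Y T d (mm β plus) c y y' hy.2 hy'.2 he)
  · filter_upwards [hR] with y hy
    exact hZPF Y T d β plus c y hβ hRL hy

theorem pf_FT2 (hTH2 : T_TH2) (hTH3 : T_TH3) (hCX2 : T_CX2) (hGTH : T_GTH) : T_FT2 := by
  intro d β plus hdb Y _ _ ν _ T hT hap hent
  have h4 : 4 < β := by
    rcases hdb with h | h
    · linarith [h.2]
    · exact h.2
  have key : ∃ θ κ : ℝ, Thr d (mm β plus) θ κ := by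
    by_cases hd : 3 ≤ d
    · exact ⟨5 / 2, 1 / 6, hTH3 d β plus hd h4⟩
    · have hd2 : d = 2 ∧ 5 < β := by
        rcases hdb with h | h
        · exact ⟨by omega, h.2⟩
        · exact absurd h.1 hd
      obtain ⟨rfl, h5⟩ := hd2
      exact ⟨19 / 10, 1 / 6, hTH2 β plus h5⟩
  obtain ⟨θ, κ, hthr⟩ := key
  obtain ⟨c, h1, h2, h3⟩ := hCX2 Y ν T d β θ κ plus hT hap h4 hthr hent
  refine hGTH d β plus Y ν T c Set.univ hT h4 h1 h2 (by simp) ?_
  intro y _ y' _ hy hy' hA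
  exact h3 y y' hy hy' hA

end Pool.Agent.H93.PF
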