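import Pool.Agent.H93.PF.Defs

/-!
# Power-free shifts (`MP_32ebde_an`): targets of the board `pfs_modules`

The paper proof is the page `H93_PF.md` of the team store.
-/

set_option autoImplicit false

open MeasureTheory Filter Topology Finset

namespace Pool.Agent.H93.PF

/-! ### W: words -/

/-- GRO: growth of the number of words (1.1). -/
def T_GRO : Prop := ∀ (d : ℕ) (m : ℕ → ℕ) (θ κ : ℝ), Thr d m θ κ →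
  (∀ n : ℕ, θ * ((FF d m n).card : ℝ) ≤ ((FF d m (n + 1)).card : ℝ)) ∧
  (∀ n k : ℕ, θ ^ k * ((FF d m n).card : ℝ) ≤ ((FF d m (n + k)).card : ℝ)) ∧
  ∀ n : ℕ, 1 ≤ (FF d m n).card

/-- GBD: many words can be glued (1.2). -/
def T_GBD : Prop := ∀ (d : ℕ) (m : ℕ → ℕ) (θ κ : ℝ), Thr d m θ κ →
  ∀ n : ℕ, κ * ((FF d m n).card : ℝ) ≤ ((GG d m n).card : ℝ)

/-- GLU: gluing (1.3). -/
def T_GLU : Prop := ∀ (A : Type) (m : ℕ → ℕ) (i j : ℕ) (u : Fin i → A) (v : Fin j → A),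
  (∀ q, 0 < q → 4 * q < m q) → Ge m u → Ge m v → Gd m (Fin.append u v)

/-- MUL: the numbers of words are nearly multiplicative (1.3). -/
def T_MUL : Prop := ∀ (d : ℕ) (m : ℕ → ℕ) (θ κ : ℝ), Thr d m θ κ →
  ∀ i j : ℕ, κ ^ 2 * (((FF d m i).card : ℝ) * ((FF d m j).card : ℝ)) ≤
    ((FF d m (i + j)).card : ℝ)

open Classical in
/-- FAC: words with a given factor at a given place (1.4). -/
def T_FAC : Prop := ∀ (d : ℕ) (m : ℕ → ℕ) (θ κ : ℝ), Thr d m θ κ →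
  ∀ (n r i : ℕ) (f : Fin r → Fin d), i + r ≤ n →
    (((FF d m n).filter fun w => Occ w i f 0 r).card : ℝ) ≤
      (κ ^ 2)⁻¹ * (θ ^ r)⁻¹ * ((FF d m n).card : ℝ)

/-- MEX: separators (1.5). -/
def T_MEX : Prop := ∀ (d : ℕ) (m : ℕ → ℕ) (θ κ : ℝ), Thr d m θ κ →
  ∃ R₀ : ℕ, ∀ R, R₀ ≤ R → ∃ M : Fin R → Fin d, Ge m M ∧
    ∀ s, 0 < s → 2 * s ≤ R → ¬ Per M s 0 R

/-- HCN: number of contents (1.6). -/
def T_HCN : Prop := ∀ (d : ℕ) (m : ℕ → ℕ) (θ κ : ℝ), Thr d m θ κ →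
  ∀ (R : ℕ) (M : Fin R → Fin d) (n : ℕ), 0 < R →
    2 * ((n : ℝ) + 1) * ((κ ^ 2)⁻¹ * (θ ^ ((R + 1) / 2))⁻¹) ≤ κ / 2 →
    κ / 2 * ((FF d m n).card : ℝ) ≤ ((HH d m M n).card : ℝ)

/-- MMF: facts on `mm`. -/
def T_MMF : Prop := ∀ (β : ℝ) (plus : Bool) (q m : ℕ), 1 < β → 0 < q →
  (Forb β plus q m ↔ mm β plus q ≤ m) ∧ β * q ≤ mm β plus q ∧ q < mm β plus q

/-- TH2: numerics, two letters. -/
def T_TH2 : Prop := ∀ (β : ℝ) (plus : Bool), 5 < β → Thr 2 (mm β plus) (19 / 10) (1 / 6)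

/-- TH3: numerics, at least three letters. -/
def T_TH3 : Prop := ∀ (d : ℕ) (β : ℝ) (plus : Bool), 3 ≤ d → 4 < β →
  Thr d (mm β plus) (5 / 2) (1 / 6)

/-- ENT: entropy and the number of words (1.7). -/
def T_ENT : Prop := ∀ (d : ℕ) (β : ℝ) (plus : Bool), 1 < β →
  (∀ n, 1 ≤ (FF d (mm β plus) n).card) →
  ∀ n : ℕ, Real.exp (topEnt (PFS d β plus) * n) ≤ ((FF d (mm β plus) n).card : ℝ)

/-- PAR: choice of the parameters of the tilings. -/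
def T_PAR : Prop := ∀ (d : ℕ) (m : ℕ → ℕ) (θ κ : ℝ), Thr d m θ κ → ∀ (h h' β : ℝ) (n₀ : ℕ),
  0 ≤ h' → h' < h → 4 < β → (∀ n : ℕ, Real.exp (h * n) ≤ ((FF d m n).card : ℝ)) →
  ∃ tl : Tl d m, n₀ ≤ tl.L ∧ 2 ≤ tl.L ∧ (tl.R : ℝ) + 1 ≤ (β - 4) * tl.L ∧
    ∀ g, (g = tl.L ∨ g = tl.L + 1) →
      Real.exp (h' * g) ≤ (((HH d m tl.M (g - tl.R)).card / 240 : ℕ) : ℝ)

/-! ### T: tilings -/

/-- OCC: the separator occurs only at the starts of the tiles (2.1). -/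
def T_OCC : Prop := ∀ (d : ℕ) (m : ℕ → ℕ) (c : Tl d m) (B : Set ℤ) (z : ℤ → Fin d),
  Tiled c B z → ∀ p : ℤ, (∀ j : Fin c.R, z (p + (j : ℕ)) = c.M j) → p ∈ B

/-- SML: no forbidden repetitions with small periods (2.2). -/
def T_SML : Prop := ∀ (d : ℕ) (m : ℕ → ℕ) (c : Tl d m) (B : Set ℤ) (z : ℤ → Fin d),
  Tiled c B z → ∀ q : ℕ, 0 < q → q < c.L → ∀ i : ℤ,
    ∃ j : ℤ, i ≤ j ∧ j + q < i + m q ∧ z (j + q) ≠ z j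

/-- INV: the tiles in a periodic interval (2.3). -/
def T_INV : Prop := ∀ (d : ℕ) (m : ℕ → ℕ) (c : Tl d m) (B : Set ℤ) (z : ℤ → Fin d),
  Tiled c B z → ∀ (q : ℕ) (a b : ℤ), (∀ j : ℤ, a ≤ j → j + q < b → z (j + q) = z j) →
    (∀ j : ℤ, a ≤ j → j + q + c.R ≤ b → (j ∈ B ↔ j + q ∈ B)) ∧
    ∀ j ∈ B, ∀ g : ℕ, a ≤ j → Nx B j g → j + g + q + c.R ≤ b →
      j + q ∈ B ∧ Nx B (j + q) g ∧
        win z (j + q + c.R) (g - c.R) = win z (j + c.R) (g - c.R)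

/-! ### S: the skeleton -/

/-- SKD: distances. -/
def T_SKD : Prop := ∀ (L : ℕ) (B : ℕ → Set ℤ) (c : ℤ → ℕ × ℕ), Sk L B c → 0 < L → ∀ k,
  (∀ s ∈ B k, ∀ t ∈ B k, s < t → s + nn L k ≤ t) ∧
  (∀ i : ℤ, ∃ s ∈ B k, i ≤ s ∧ s < i + gg L k ∧ ∀ j, i ≤ j → j < s → j ∉ B k) ∧
  (∀ i : ℤ, ∃ s ∈ B k, s < i ∧ i ≤ s + gg L k ∧ ∀ j, s < j → j < i → j ∉ B k)

/-- SKR: recognition (3.1). -/
def T_SKR : Prop := ∀ (L : ℕ) (B : ℕ → Set ℤ) (c : ℤ → ℕ × ℕ), Sk L B c → 0 < L →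
  ∀ (k : ℕ) (s : ℤ) (g₁ g₂ : ℕ), s ∈ B k → Nx (B k) s g₁ → Nx (B k) (s + g₁) g₂ →
    (s ∈ B (k + 1) ↔ c (s + g₁) = (k % 3, 1) ∧ c (s + g₁ + g₂) = (k % 3, 2))

/-- SKM: the index increases. -/
def T_SKM : Prop := ∀ (L : ℕ) (B : ℕ → Set ℤ) (c : ℤ → ℕ × ℕ), Sk L B c → 0 < L →
  ∀ (k : ℕ) (s t : ℤ), s ∈ B k → t ∈ B k → s < t →
    (∀ j, s ≤ j → j ≤ t → j ∉ B (k + 1)) → (c s).2 < (c t).2

/-- SKS: the step (3.2). -/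
def T_SKS : Prop := ∀ (L : ℕ) (B : ℕ → Set ℤ) (c : ℤ → ℕ × ℕ), Sk L B c → 0 < L →
  ∀ (k q : ℕ) (a b : ℤ), 0 < q → QI (B k) q a b →
    (∀ j ∈ B k, a ≤ j → j + q < b → c (j + q) = c j) → a + 3 * q ≤ b →
    (∃ j ∈ B k, a ≤ j ∧ j + q < b) →
    ∃ y ∈ B (k + 1), a ≤ y ∧ y + q ∈ B (k + 1) ∧ y < a + q + gg L k

/-- SKF: no long periodic intervals (3.2). -/
def T_SKF : Prop := ∀ (L : ℕ) (B : ℕ → Set ℤ) (c : ℤ → ℕ × ℕ), Sk L B c → 0 < L →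
  ∀ (q : ℕ) (a b : ℤ), L ≤ q → QI (B 0) q a b →
    (∀ j ∈ B 0, a ≤ j → j + q < b → c (j + q) = c j) →
    a + 3 * q ≤ b → a + 4 * q ≤ b + 2 * L → False

/-- PFR: tiled sequences with a skeleton are power-free (3.3). -/
def T_PFR : Prop := ∀ (d : ℕ) (β : ℝ) (plus : Bool) (c : Tl d (mm β plus)) (B : ℕ → Set ℤ)
  (col : ℤ → ℕ × ℕ) (z : ℤ → Fin d), 4 < β → (c.R : ℝ) + 1 ≤ (β - 4) * c.L →
  Tiled c (B 0) z → Sk c.L B col →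
  (∀ j ∈ B 0, ∀ j' ∈ B 0, ∀ g : ℕ, Nx (B 0) j g → Nx (B 0) j' g →
    win z (j + c.R) (g - c.R) = win z (j' + c.R) (g - c.R) → col j = col j') →
  z ∈ PFS d β plus

/-! ### M: markers -/

/-- ZPB: basic facts on the iterates. -/
def T_ZPB : Prop := ∀ (Y : Type) [MeasurableSpace Y] (T : Y ≃ᵐ Y),
  (∀ y, zp T 0 y = y) ∧ (∀ (m n : ℤ) (y : Y), zp T (m + n) y = zp T m (zp T n y)) ∧
  (∀ y, zp T 1 y = T y) ∧ (∀ (n : ℕ) (y : Y), zp T (n : ℤ) y = T^[n] y) ∧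
  (∀ n, Measurable (zp T n)) ∧
  ∀ ν : Measure Y, MeasurePreserving T ν ν → ∀ n, MeasurePreserving (zp T n) ν ν

/-- LNB: basic facts on `la`, `na`, `pa`. -/
def T_LNB : Prop := ∀ (Y : Type) [MeasurableSpace Y] (T : Y ≃ᵐ Y) (S : Set Y) (y : Y),
  ((∃ a : ℕ, zp T (-(a : ℤ)) y ∈ S) → zp T (-(la T S y : ℤ)) y ∈ S ∧
    ∀ j : ℕ, j < la T S y → zp T (-(j : ℤ)) y ∉ S) ∧
  ((∃ b : ℕ, 1 ≤ b ∧ zp T (b : ℤ) y ∈ S) → 1 ≤ na T S y ∧ zp T (na T S y : ℤ) y ∈ S ∧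
    ∀ j : ℕ, 1 ≤ j → j < na T S y → zp T (j : ℤ) y ∉ S) ∧
  ((∃ b : ℕ, 1 ≤ b ∧ zp T (-(b : ℤ)) y ∈ S) → 1 ≤ pa T S y ∧ zp T (-(pa T S y : ℤ)) y ∈ S ∧
    ∀ j : ℕ, 1 ≤ j → j < pa T S y → zp T (-(j : ℤ)) y ∉ S) ∧
  ∀ (s : ℤ) (g : ℕ), s ∈ ob T S y → Nx (ob T S y) s g → ∀ x : ℤ, s ≤ x → x < s + g →
    (la T S (zp T x y) : ℤ) = x - s ∧ (na T S (zp T x y) : ℤ) = s + g - x

/-- TAU: the pieces of a gap. -/
def T_TAU : Prop := ∀ L r : ℕ, 2 ≤ L → L ^ 2 ≤ r →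
  0 < nt L r ∧ tau L r 0 = 0 ∧ tau L r (nt L r) = r ∧
  (∀ i, tau L r (i + 1) = tau L r i + L ∨ tau L r (i + 1) = tau L r i + (L + 1)) ∧
  (∀ i, ti L r (tau L r i) = i)

/-- B0F: the tiles in a gap of `D 0`. -/
def T_B0F : Prop := ∀ (Y : Type) [MeasurableSpace Y] (T : Y ≃ᵐ Y) (L : ℕ) (D : ℕ → Set Y),
  Mk T L D → ∀ y, Rc T D y → ∀ (a : ℤ) (r : ℕ), a ∈ ob T (D 0) y → Nx (ob T (D 0) y) a r →
    L ^ 2 ≤ r ∧ ∀ x : ℤ, a ≤ x → x < a + r →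
      (x ∈ ob T (Bk T L D 0) y ↔ ∃ i : ℕ, i < nt L r ∧ x = a + tau L r i)

/-- BKF: the gaps of the marker sets (4.3). -/
def T_BKF : Prop := ∀ (Y : Type) [MeasurableSpace Y] (T : Y ≃ᵐ Y) (L : ℕ) (D : ℕ → Set Y),
  Mk T L D → ∀ y, Rc T D y →
    (∀ k, ob T (D k) y ⊆ ob T (Bk T L D k) y) ∧
    (∀ k (i : ℤ), ∃ s ∈ ob T (Bk T L D k) y, s ≤ i) ∧
    (∀ k, ∀ s ∈ ob T (Bk T L D k) y, ∃ g : ℕ, nn L k ≤ g ∧ g ≤ gg L k ∧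
      Nx (ob T (Bk T L D k) y) s g) ∧
    ∀ s ∈ ob T (Bk T L D 0) y, ∃ g : ℕ, (g = L ∨ g = L + 1) ∧ Nx (ob T (Bk T L D 0) y) s g

/-- SKC: the marker sets with the colours are a skeleton. -/
def T_SKC : Prop := ∀ (Y : Type) [MeasurableSpace Y] (T : Y ≃ᵐ Y) (L : ℕ) (D : ℕ → Set Y),
  Mk T L D → ∀ y, Rc T D y →
    Sk L (fun k => ob T (Bk T L D k) y) (fun n => co T L D (zp T n y))

/-- MES: measurability. -/
def T_MES : Prop := ∀ (Y : Type) [MeasurableSpace Y] (T : Y ≃ᵐ Y),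
  (∀ S : Set Y, MeasurableSet S → Measurable (la T S) ∧ Measurable (na T S) ∧
    Measurable (pa T S)) ∧
  ∀ (L : ℕ) (D : ℕ → Set Y), (∀ k, MeasurableSet (D k)) →
    (∀ k, MeasurableSet (Bk T L D k)) ∧ Measurable (co T L D)

/-! ### E: ergodic theory -/

/-- MAR: sets without early returns (4.1). -/
def T_MAR : Prop := ∀ (Y : Type) [MeasurableSpace Y] [StandardBorelSpace Y] (ν : Measure Y)
  [IsProbabilityMeasure ν] (T : Y ≃ᵐ Y) (E : Set Y) (H : ℕ),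
  (∀ᵐ y ∂ν, ∀ n : ℕ, 0 < n → T^[n] y ≠ y) → MeasurableSet E → 0 < ν E →
  ∃ A ⊆ E, MeasurableSet A ∧ 0 < ν A ∧ ∀ y ∈ A, ∀ i : ℕ, 0 < i → i < H → zp T (i : ℤ) y ∉ A

/-- REC: recurrence. -/
def T_REC : Prop := ∀ (Y : Type) [MeasurableSpace Y] (ν : Measure Y) [IsProbabilityMeasure ν]
  (T : Y ≃ᵐ Y) (S : Set Y), Ergodic T ν → MeasurableSet S → 0 < ν S →
  ∀ᵐ y ∂ν, ∀ n : ℕ, (∃ j : ℕ, n ≤ j ∧ zp T (j : ℤ) y ∈ S) ∧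
    ∃ j : ℕ, n ≤ j ∧ zp T (-(j : ℤ)) y ∈ S

section smb

variable {Y : Type} [MeasurableSpace Y]

/-- the measure of the cylinder of the name of length `n` of `y`, started at the time `i` -/
noncomputable def pn (ν : Measure Y) (T : Y → Y) {K : ℕ} (P : Y → Fin K) (n : ℕ) (y : Y) : ℝ :=
  ν.real (cyl T P fun i : Fin n => P (T^[(i : ℕ)] y))

/-- the weight of a word for the Markov measure with memory `k` -/
noncomputable def qw (ν : Measure Y) (T : Y → Y) {K : ℕ} (P : Y → Fin K) (k l : ℕ)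
    (w : Fin (k + l) → Fin K) : ℝ :=
  ν.real (cyl T P fun j : Fin k => w ⟨j, by omega⟩) *
    ∏ i : Fin l, (ν.real (cyl T P fun j : Fin (k + 1) => w ⟨i + j, by omega⟩) /
      ν.real (cyl T P fun j : Fin k => w ⟨i + j, by omega⟩))

end smb

/-- QSM: the weights have total at most one. -/
def T_QSM : Prop := ∀ (Y : Type) [MeasurableSpace Y] (ν : Measure Y) [IsProbabilityMeasure ν]
  (T : Y ≃ᵐ Y) (K : ℕ) (P : Y → Fin K), MeasurePreserving T ν ν → Measurable P →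
  ∀ k l : ℕ, ∑ w : Fin (k + l) → Fin K, qw ν T P k l w ≤ 1

/-- QBC: the cylinders are not much smaller than the weights (Borel-Cantelli). -/
def T_QBC : Prop := ∀ (Y : Type) [MeasurableSpace Y] (ν : Measure Y) [IsProbabilityMeasure ν]
  (T : Y ≃ᵐ Y) (K : ℕ) (P : Y → Fin K) (k : ℕ) (ε : ℝ), MeasurePreserving T ν ν →
  Measurable P → 0 < ε → ∀ᵐ y ∂ν, ∀ᶠ l : ℕ in atTop,
    Real.exp (-ε * (k + l)) * qw ν T P k l (fun i => P (T^[(i : ℕ)] y)) ≤ pn ν T P (k + l) y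

/-- FIN: the averages of the conditional information. -/
def T_FIN : Prop := ∀ (Y : Type) [MeasurableSpace Y] (ν : Measure Y) [IsProbabilityMeasure ν]
  (T : Y ≃ᵐ Y) (K : ℕ) (P : Y → Fin K) (k : ℕ), Ergodic T ν → Measurable P →
  ∀ᵐ y ∂ν, (∀ i : ℕ, 0 < pn ν T P k (T^[i] y) ∧ 0 < pn ν T P (k + 1) (T^[i] y)) ∧
    Tendsto (fun l : ℕ => (∑ i ∈ range l, (Real.log (pn ν T P k (T^[i] y)) -
      Real.log (pn ν T P (k + 1) (T^[i] y)))) / l) atTop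
      (𝓝 (Hn ν T P (k + 1) - Hn ν T P k))

/-- KEX: a small increment of the entropy. -/
def T_KEX : Prop := ∀ (Y : Type) [MeasurableSpace Y] (ν : Measure Y) [IsProbabilityMeasure ν]
  (T : Y ≃ᵐ Y) (K : ℕ) (P : Y → Fin K) (h' : ℝ), Measurable P → entP ν T P < h' →
  ∃ k : ℕ, Hn ν T P (k + 1) - Hn ν T P k < h'

/-- SMU: the easy half of the theorem of Shannon, McMillan and Breiman (4.2). -/
def T_SMU : Prop := ∀ (Y : Type) [MeasurableSpace Y] (ν : Measure Y) [IsProbabilityMeasure ν]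
  (T : Y ≃ᵐ Y) (K : ℕ) (P : Y → Fin K) (h' : ℝ), Ergodic T ν → Measurable P →
  entP ν T P < h' → ∀ᵐ y ∂ν, ∀ᶠ n : ℕ in atTop, Real.exp (-h' * n) ≤ pn ν T P n y

/-- CAR: number of the large cylinders. -/
def T_CAR : Prop := ∀ (Y : Type) [MeasurableSpace Y] (ν : Measure Y) [IsProbabilityMeasure ν]
  (T : Y ≃ᵐ Y) (K : ℕ) (P : Y → Fin K) (h' : ℝ) (r : ℕ), Measurable P →
  (({w : Fin r → Fin K | Real.exp (-h' * r) ≤ ν.real (cyl T P w)}.ncard : ℕ) : ℝ) ≤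
    Real.exp (h' * r)

/-- DSQ: the sparse marker sets (4.3). -/
def T_DSQ : Prop := ∀ (Y : Type) [MeasurableSpace Y] [StandardBorelSpace Y] (ν : Measure Y)
  [IsProbabilityMeasure ν] (T : Y ≃ᵐ Y) (K : ℕ) (P : Y → Fin K) (h' : ℝ), Ergodic T ν →
  (∀ᵐ y ∂ν, ∀ n : ℕ, 0 < n → T^[n] y ≠ y) → Measurable P → entP ν T P < h' →
  ∃ n₀ : ℕ, ∀ L, n₀ ≤ L → 2 ≤ L → ∃ D : ℕ → Set Y, (∀ k, MeasurableSet (D k)) ∧
    (∀ k, 0 < ν (D k)) ∧ Mk T L D ∧ ∀ y ∈ D 0, ∀ r, L ^ 2 ≤ r →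
      Real.exp (-h' * r) ≤ ν.real (cyl T P fun i : Fin r => P (zp T ((i : ℕ) : ℤ) y))

/-! ### C: the coding -/

/-- MSG: the messages. -/
def T_MSG : Prop := ∀ (L K : ℕ) (h' : ℝ) (Q : ℕ → ℕ) (S : (r : ℕ) → Set (Fin r → Fin K)),
  2 ≤ L → 0 ≤ h' → (∀ g, (g = L ∨ g = L + 1) → Real.exp (h' * g) ≤ (Q g : ℝ)) →
  (∀ r, ((S r).ncard : ℝ) ≤ Real.exp (h' * r)) →
  ∃ msg : (r : ℕ) → (Fin r → Fin K) → ℕ → ℕ,
    (∀ r, L ^ 2 ≤ r → ∀ w i, i < nt L r → msg r w i < Q (tau L r (i + 1) - tau L r i)) ∧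
    ∀ r, L ^ 2 ≤ r → ∀ w ∈ S r, ∀ w' ∈ S r, (∀ i < nt L r, msg r w i = msg r w' i) → w = w'

/-- ENC: the contents. -/
def T_ENC : Prop := ∀ (d : ℕ) (m : ℕ → ℕ) (tl : Tl d m) (Q : ℕ → ℕ),
  (∀ g, (g = tl.L ∨ g = tl.L + 1) → 0 < Q g ∧ 120 * Q g ≤ (HH d m tl.M (g - tl.R)).card) →
  ∃ enc : (g : ℕ) → ℕ × ℕ → ℕ → (Fin (g - tl.R) → Fin d),
    (∀ g, (g = tl.L ∨ g = tl.L + 1) → ∀ c k, c.1 < 3 → c.2 < 40 → k < Q g →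
      enc g c k ∈ HH d m tl.M (g - tl.R)) ∧
    ∀ g, (g = tl.L ∨ g = tl.L + 1) → ∀ c k c' k', c.1 < 3 → c.2 < 40 → k < Q g →
      c'.1 < 3 → c'.2 < 40 → k' < Q g → enc g c k = enc g c' k' → c = c' ∧ k = k'

/-- M1M: the messages are measurable. -/
def T_M1M : Prop := ∀ (Y : Type) [MeasurableSpace Y] (T : Y ≃ᵐ Y) (K L : ℕ) (P : Y → Fin K)
  (S : Set Y) (msg : (r : ℕ) → (Fin r → Fin K) → ℕ → ℕ), Measurable P → MeasurableSet S →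
  Measurable (ms1 T L P S msg)

/-- M1B: bound for the messages. -/
def T_M1B : Prop := ∀ (Y : Type) [MeasurableSpace Y] (T : Y ≃ᵐ Y) (K L : ℕ) (P : Y → Fin K)
  (D : ℕ → Set Y) (Q : ℕ → ℕ) (msg : (r : ℕ) → (Fin r → Fin K) → ℕ → ℕ), Mk T L D →
  (∀ r, L ^ 2 ≤ r → ∀ w i, i < nt L r → msg r w i < Q (tau L r (i + 1) - tau L r i)) →
  ∀ y, Rc T D y → y ∈ Bk T L D 0 →
    ms1 T L P (D 0) msg y < 2 * Q (na T (Bk T L D 0) y)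

/-- M1D: the messages determine the names. -/
def T_M1D : Prop := ∀ (Y : Type) [MeasurableSpace Y] (T : Y ≃ᵐ Y) (K L : ℕ) (P : Y → Fin K)
  (D : ℕ → Set Y) (S : (r : ℕ) → Set (Fin r → Fin K))
  (msg : (r : ℕ) → (Fin r → Fin K) → ℕ → ℕ), Mk T L D →
  (∀ y ∈ D 0, ∀ r, L ^ 2 ≤ r → (fun i : Fin r => P (zp T ((i : ℕ) : ℤ) y)) ∈ S r) →
  (∀ r, L ^ 2 ≤ r → ∀ w ∈ S r, ∀ w' ∈ S r, (∀ i < nt L r, msg r w i = msg r w' i) → w = w') →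
  ∀ y y', Rc T D y → Rc T D y' → ob T (Bk T L D 0) y = ob T (Bk T L D 0) y' →
    (∀ s ∈ ob T (Bk T L D 0) y,
      ms1 T L P (D 0) msg (zp T s y) = ms1 T L P (D 0) msg (zp T s y')) →
    ∀ n : ℤ, P (zp T n y) = P (zp T n y')

/-- ZME: the coding is measurable. -/
def T_ZME : Prop := ∀ (Y : Type) [MeasurableSpace Y] (T : Y ≃ᵐ Y) (d : ℕ) (m : ℕ → ℕ)
  (c : Cx T d m), Measurable c.z0

/-- ZTI: the coded sequences are tiled. -/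
def T_ZTI : Prop := ∀ (Y : Type) [MeasurableSpace Y] (T : Y ≃ᵐ Y) (d : ℕ) (m : ℕ → ℕ)
  (c : Cx T d m) (y : Y), Rc T c.D y →
  Tiled c.tl (ob T c.B0 y) (c.phi y) ∧
  ∀ s ∈ ob T c.B0 y, ∀ g : ℕ, Nx (ob T c.B0 y) s g →
    win (c.phi y) (s + c.tl.R) (g - c.tl.R) = c.ct g (zp T s y) ∧
    c.ms (zp T s y) < c.Q g ∧ (co T c.tl.L c.D (zp T s y)).1 < 3 ∧
    (co T c.tl.L c.D (zp T s y)).2 < 40

/-- ZPF: the coded sequences are power-free. -/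
def T_ZPF : Prop := ∀ (Y : Type) [MeasurableSpace Y] (T : Y ≃ᵐ Y) (d : ℕ) (β : ℝ)
  (plus : Bool) (c : Cx T d (mm β plus)) (y : Y),
  4 < β → (c.tl.R : ℝ) + 1 ≤ (β - 4) * c.tl.L → Rc T c.D y → c.phi y ∈ PFS d β plus

/-- ZIN: the coded sequences determine the tiles, the colours and the messages. -/
def T_ZIN : Prop := ∀ (Y : Type) [MeasurableSpace Y] (T : Y ≃ᵐ Y) (d : ℕ) (m : ℕ → ℕ)
  (c : Cx T d m) (y y' : Y), Rc T c.D y → Rc T c.D y' → c.phi y = c.phi y' → c.Ag y y'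

/-- ISO: an equivariant map which is injective almost everywhere is an isomorphism. -/
def T_ISO : Prop := ∀ (Y : Type) [MeasurableSpace Y] [StandardBorelSpace Y] (ν : Measure Y)
  [IsProbabilityMeasure ν] (T : Y ≃ᵐ Y) (d : ℕ) (f : Y → ℤ → Fin d) (G : Set Y)
  (X : Set (ℤ → Fin d)), MeasurePreserving T ν ν → Measurable f →
  (∀ y, f (T y) = sh (f y)) → (∀ᵐ y ∂ν, y ∈ G) → Set.InjOn f G → (∀ᵐ y ∂ν, f y ∈ X) →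
  ∃ μ : Measure (ℤ → Fin d), IsProbabilityMeasure μ ∧ MeasurePreserving sh μ μ ∧
    μ Xᶜ = 0 ∧ Isom ν T μ sh

/-- GTH: from the data of the coding to the isomorphism. -/
def T_GTH : Prop := ∀ (d : ℕ) (β : ℝ) (plus : Bool) (Y : Type) [MeasurableSpace Y]
  [StandardBorelSpace Y] (ν : Measure Y) [IsProbabilityMeasure ν] (T : Y ≃ᵐ Y)
  (c : Cx T d (mm β plus)) (G : Set Y), Ergodic T ν → 4 < β →
  (c.tl.R : ℝ) + 1 ≤ (β - 4) * c.tl.L → (∀ k, 0 < ν (c.D k)) → (∀ᵐ y ∂ν, y ∈ G) →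
  (∀ y ∈ G, ∀ y' ∈ G, Rc T c.D y → Rc T c.D y' → c.Ag y y' → y = y') →
  ∃ μ : Measure (ℤ → Fin d), IsProbabilityMeasure μ ∧ MeasurePreserving sh μ μ ∧
    μ (PFS d β plus)ᶜ = 0 ∧ Isom ν T μ sh

/-- CXE: existence of the data of the coding. -/
def T_CXE : Prop := ∀ (Y : Type) [MeasurableSpace Y] [StandardBorelSpace Y] (ν : Measure Y)
  [IsProbabilityMeasure ν] (T : Y ≃ᵐ Y) (K : ℕ) (P : Y → Fin K) (d : ℕ) (β θ κ : ℝ)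
  (plus : Bool), Ergodic T ν → (∀ᵐ y ∂ν, ∀ n : ℕ, 0 < n → T^[n] y ≠ y) → Measurable P →
  4 < β → Thr d (mm β plus) θ κ → entP ν T P < topEnt (PFS d β plus) → 0 ≤ entP ν T P →
  ∃ c : Cx T d (mm β plus), (c.tl.R : ℝ) + 1 ≤ (β - 4) * c.tl.L ∧ (∀ k, 0 < ν (c.D k)) ∧
    ∀ y y', Rc T c.D y → Rc T c.D y' → c.Ag y y' → ∀ n : ℤ, P (zp T n y) = P (zp T n y')

/-- FTH: the theorem. -/
def T_FTH : Prop := ∀ (d : ℕ) (β : ℝ) (plus : Bool), (2 ≤ d ∧ 5 < β) ∨ (3 ≤ d ∧ 4 < β) →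
  ∀ (Y : Type) [MeasurableSpace Y] [StandardBorelSpace Y] (ν : Measure Y)
    [IsProbabilityMeasure ν] (T : Y ≃ᵐ Y), Ergodic T ν →
    (∀ᵐ y ∂ν, ∀ n : ℕ, 0 < n → T^[n] y ≠ y) →
    (∃ (K : ℕ) (P : Y → Fin K) (G : Set Y), Measurable P ∧ (∀ᵐ y ∂ν, y ∈ G) ∧
      Set.InjOn (fun y (n : ℤ) => P (zp T n y)) G) →
    ksEnt ν T < ((topEnt (PFS d β plus) : ℝ) : EReal) →
    ∃ μ : Measure (ℤ → Fin d), IsProbabilityMeasure μ ∧ MeasurePreserving sh μ μ ∧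
      μ (PFS d β plus)ᶜ = 0 ∧ Isom ν T μ sh

end Pool.Agent.H93.PF
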