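import Pool.Agent.H93.PF.Zp

/-!
# Power-free shifts (`MP_32ebde_an`): further targets of the board `pfs_modules`
-/

set_option autoImplicit false

open MeasureTheory Filter Topology Finset

namespace Pool.Agent.H93.PF

open Classical in
/-- number of the points of `B` in `(s, x]` -/
noncomputable def cnt (B : Set ℤ) (s x : ℤ) : ℕ := ((Finset.Ioc s x).filter fun j => j ∈ B).card

/-- CNT: counting. -/
def T_CNT : Prop := ∀ (B : Set ℤ) (s : ℤ),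
  (∀ (x : ℤ) (g : ℕ), s ≤ x → Nx B x g → cnt B s (x + g) = cnt B s x + 1) ∧
  (∀ x : ℤ, x ≤ s → cnt B s x = 0) ∧
  (∀ x : ℤ, s < x → x ∈ B → 1 ≤ cnt B s x) ∧
  ∀ (n : ℕ) (x : ℤ), (∀ t ∈ B, ∀ u ∈ B, t < u → t + n ≤ u) → s ∈ B → s ≤ x →
    (cnt B s x : ℤ) * n ≤ x - s

/-- BKT: the points of `B (k + 1)` in a gap of `D (k + 1)`. -/
def T_BKT : Prop := ∀ (Y : Type) [MeasurableSpace Y] (T : Y ≃ᵐ Y) (L : ℕ) (D : ℕ → Set Y),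
  Mk T L D → ∀ y, Rc T D y → ∀ k : ℕ, (∀ i : ℤ, ∃ s ∈ ob T (Bk T L D k) y, s ≤ i) →
  ∀ (A : ℤ) (r : ℕ), A ∈ ob T (D (k + 1)) y → Nx (ob T (D (k + 1)) y) A r →
    16 ^ (k + 1) * L ≤ r ∧ ∀ x : ℤ, A ≤ x → x < A + r →
      (x ∈ ob T (Bk T L D (k + 1)) y ↔ x ∈ ob T (Bk T L D k) y ∧
        ∃ i : ℕ, (i + 1) * (16 ^ (k + 1) * L) ≤ r ∧
          A + ((i * (16 ^ (k + 1) * L) : ℕ) : ℤ) ≤ x ∧
          ∀ x' : ℤ, A + ((i * (16 ^ (k + 1) * L) : ℕ) : ℤ) ≤ x' → x' < x →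
            x' ∉ ob T (Bk T L D k) y)

/-- IXA: exact level and index. -/
def T_IXA : Prop := ∀ (Y : Type) [MeasurableSpace Y] (T : Y ≃ᵐ Y) (L : ℕ) (D : ℕ → Set Y) (y : Y)
  (k : ℕ) (x s : ℤ), x ∈ ob T (Bk T L D k) y → x ∉ ob T (Bk T L D (k + 1)) y →
  s ∈ ob T (Bk T L D (k + 1)) y → s < x → (∀ j, s < j → j ≤ x → j ∉ ob T (Bk T L D (k + 1)) y) →
  lv T L D (zp T x y) = k ∧ ix T L D (zp T x y) = cnt (ob T (Bk T L D k) y) s x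

end Pool.Agent.H93.PF
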