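import Pool.Agent.H93.PF.TargetsB

/-!
# Power-free shifts (`MP_32ebde_an`): the easy half of the relative Shannon-McMillan theorem
-/

set_option autoImplicit false

open MeasureTheory Filter Topology Finset

namespace Pool.Agent.H93.PF

theorem idx {i B k n b j : ℕ} (h : i + B * k ≤ n) (hb : b < B) (hj : j < k) :
    i + b * k + j < n := by
  have : (b + 1) * k ≤ B * k := Nat.mul_le_mul_right k hb
  nlinarith

/-- RQS: product of the weights of `B` consecutive blocks of length `k`, started at `i`; every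
other letter counts `K'`. -/
def T_RQS : Prop := ∀ (K K' k i B n : ℕ) (h : i + B * k ≤ n) (π : Fin K' → Fin K)
  (r : (Fin k → Fin K') → ℝ), (∀ u, 0 ≤ r u) →
  (∀ v : Fin k → Fin K, (∑ u ∈ univ.filter fun u : Fin k → Fin K' => (fun j => π (u j)) = v,
    r u) ≤ 1) →
  ∀ v : Fin n → Fin K,
    (∑ w ∈ univ.filter fun w : Fin n → Fin K' => (fun j => π (w j)) = v,
      ∏ b : Fin B, r fun j => w ⟨i + b * k + j, idx h b.2 j.2⟩) ≤ (K' : ℝ) ^ (n - B * k)

section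

variable {Y : Type} [MeasurableSpace Y]

/-- the weight of the name of `y` for the partition `P'` relative to the name for `P`: product
over the blocks of length `k` which start at `i, i + k, …` -/
noncomputable def rw' (ν : Measure Y) (T : Y → Y) {K K' : ℕ} (P : Y → Fin K) (P' : Y → Fin K')
    (k i n : ℕ) (y : Y) : ℝ :=
  ((K' : ℝ) ^ (2 * k))⁻¹ * ∏ b ∈ range ((n - i) / k),
    (pn ν T P' k (T^[i + b * k] y) / pn ν T P k (T^[i + b * k] y))

end

/-- HNB: bounds for the entropies. -/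
def T_HNB : Prop := ∀ (Y : Type) [MeasurableSpace Y] (ν : Measure Y) [IsProbabilityMeasure ν]
  (T : Y ≃ᵐ Y) (K : ℕ) (P : Y → Fin K), Measurable P →
  (∀ n : ℕ, 0 ≤ Hn ν T P n ∧ Hn ν T P n ≤ n * Real.log K) ∧ 0 ≤ entP ν T P ∧
  IsBoundedUnder (· ≤ ·) atTop (fun n : ℕ => Hn ν T P n / n) ∧
  IsBoundedUnder (· ≥ ·) atTop (fun n : ℕ => Hn ν T P n / n)

/-- RBC: Borel-Cantelli. -/
def T_RBC : Prop := ∀ (Y : Type) [MeasurableSpace Y] (ν : Measure Y) [IsProbabilityMeasure ν]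
  (T : Y ≃ᵐ Y) (K K' : ℕ) (P : Y → Fin K) (P' : Y → Fin K') (π : Fin K' → Fin K) (k : ℕ)
  (ε : ℝ), MeasurePreserving T ν ν → Measurable P' → (∀ y, P y = π (P' y)) → 0 < k → 0 < ε →
  ∀ᵐ y ∂ν, ∀ᶠ n : ℕ in atTop, ∀ i < k,
    Real.exp (-ε * n) * pn ν T P n y * rw' ν T P P' k i n y ≤ pn ν T P' n y

/-- RBI: the averages of the conditional information. -/
def T_RBI : Prop := ∀ (Y : Type) [MeasurableSpace Y] (ν : Measure Y) [IsProbabilityMeasure ν]
  (T : Y ≃ᵐ Y) (K K' : ℕ) (P : Y → Fin K) (P' : Y → Fin K') (k : ℕ), Ergodic T ν →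
  Measurable P → Measurable P' →
  ∀ᵐ y ∂ν, (∀ i l : ℕ, 0 < pn ν T P l (T^[i] y) ∧ 0 < pn ν T P' l (T^[i] y)) ∧
    Tendsto (fun n : ℕ => (∑ i ∈ range n, (Real.log (pn ν T P' k (T^[i] y)) -
      Real.log (pn ν T P k (T^[i] y)))) / n) atTop (𝓝 (Hn ν T P k - Hn ν T P' k))

/-- REX: a good length of the blocks. -/
def T_REX : Prop := ∀ (Y : Type) [MeasurableSpace Y] (ν : Measure Y) [IsProbabilityMeasure ν]
  (T : Y ≃ᵐ Y) (K K' : ℕ) (P : Y → Fin K) (P' : Y → Fin K') (δ : ℝ), Measurable P →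
  Measurable P' → entP ν T P' - entP ν T P < δ →
  ∃ k : ℕ, 0 < k ∧ Hn ν T P' k - Hn ν T P k < k * δ

/-- RSM: the easy half of the relative theorem of Shannon, McMillan and Breiman. -/
def T_RSM : Prop := ∀ (Y : Type) [MeasurableSpace Y] (ν : Measure Y) [IsProbabilityMeasure ν]
  (T : Y ≃ᵐ Y) (K K' : ℕ) (P : Y → Fin K) (P' : Y → Fin K') (π : Fin K' → Fin K) (δ : ℝ),
  Ergodic T ν → Measurable P' → (∀ y, P y = π (P' y)) → entP ν T P' - entP ν T P < δ →
  ∀ᵐ y ∂ν, ∀ᶠ n : ℕ in atTop, 0 < pn ν T P' n y ∧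
    Real.exp (-δ * n) * pn ν T P n y ≤ pn ν T P' n y

/-- HMO: the entropy is monotone. -/
def T_HMO : Prop := ∀ (Y : Type) [MeasurableSpace Y] (ν : Measure Y) [IsProbabilityMeasure ν]
  (T : Y ≃ᵐ Y) (K K' : ℕ) (P : Y → Fin K) (P' : Y → Fin K') (π : Fin K' → Fin K),
  Measurable P' → (∀ y, P y = π (P' y)) → entP ν T P ≤ entP ν T P'

end Pool.Agent.H93.PF
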