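import Pool.Agent.H93.PF.TargetsC

/-!
# Power-free shifts (`MP_32ebde_an`): the hierarchical coding (no generator)

An increasing sequence of finite partitions `P 0, P 1, …` which separates the points. The names of
`P 0` are coded in the gaps of `D 0`; the names of `P (j + 1)`, given the names of `P j`, are coded
in the gaps of `D (j + 1)`: in the first tiles (index `1`) after the points of `B (j + 1)`.
-/

set_option autoImplicit false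

open MeasureTheory Filter Topology Finset

namespace Pool.Agent.H93.PF

/-- the codes of the partitions `P (j + 1)` -/
abbrev Cod (K : ℕ → ℕ) : Type := (j r : ℕ) → (Fin r → Fin (K (j + 1))) → ℕ → ℕ

section

variable {Y : Type} [MeasurableSpace Y] (T : Y ≃ᵐ Y)

open Classical in
/-- number of the visits in `S` since the last visit in `S'`, the present excluded -/
noncomputable def bi (S S' : Set Y) (y : Y) : ℕ :=
  ((range (la T S' y)).filter fun j => zp T (-((j : ℤ) + 1)) y ∈ S).card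

open Classical in
/-- the information at the points of `B (j + 1)`: a bit for the points of `D (j + 1)`, and a part
of the code of the `P (j + 1)`-name of the gap of `D (j + 1)` -/
noncomputable def fm (L : ℕ) (D : ℕ → Set Y) {K : ℕ → ℕ} (P : (j : ℕ) → Y → Fin (K j))
    (code : Cod K) (j : ℕ) (y : Y) : ℕ :=
  (if y ∈ D (j + 1) then 1 else 0) + 2 * code j (la T (D (j + 1)) y + na T (D (j + 1)) y)
    (nam T (P (j + 1)) (D (j + 1)) y) (bi T (Bk T L D (j + 1)) (D (j + 1)) y)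

/-- the information `fm` at the previous point of the same level -/
noncomputable def xm (L : ℕ) (D : ℕ → Set Y) {K : ℕ → ℕ} (P : (j : ℕ) → Y → Fin (K j))
    (code : Cod K) (y : Y) : ℕ :=
  fm T L D P code (lv T L D y) (zp T (-(pa T (Bk T L D (lv T L D y)) y : ℤ)) y)

/-- the message of the tile which starts at `y` -/
noncomputable def ms2 (L : ℕ) (D : ℕ → Set Y) {K : ℕ → ℕ} (P : (j : ℕ) → Y → Fin (K j))
    (code : Cod K) (msg : (r : ℕ) → (Fin r → Fin (K 0)) → ℕ → ℕ) (q : ℕ) (y : Y) : ℕ :=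
  xm T L D P code y + q * ms1 T L (P 0) (D 0) msg y

end

/-- ME2: measurability. -/
def T_ME2 : Prop := ∀ (Y : Type) [MeasurableSpace Y] (T : Y ≃ᵐ Y),
  (∀ S S' : Set Y, MeasurableSet S → MeasurableSet S' → Measurable (bi T S S') ∧
    Measurable (fun y => zp T (-(pa T S y : ℤ)) y)) ∧
  ∀ (L : ℕ) (D : ℕ → Set Y), (∀ k, MeasurableSet (D k)) → Measurable (lv T L D)

/-- X2M: the messages are measurable. -/
def T_X2M : Prop := ∀ (Y : Type) [MeasurableSpace Y] (T : Y ≃ᵐ Y) (L : ℕ) (D : ℕ → Set Y)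
  (K : ℕ → ℕ) (P : (j : ℕ) → Y → Fin (K j)) (code : Cod K)
  (msg : (r : ℕ) → (Fin r → Fin (K 0)) → ℕ → ℕ) (q : ℕ), (∀ j, Measurable (P j)) →
  (∀ k, MeasurableSet (D k)) → Measurable (ms2 T L D P code msg q)

/-- X2B: the messages `xm` are bounded, and can be recovered. -/
def T_X2B : Prop := ∀ (Y : Type) [MeasurableSpace Y] (T : Y ≃ᵐ Y) (L : ℕ) (D : ℕ → Set Y)
  (K : ℕ → ℕ) (P : (j : ℕ) → Y → Fin (K j)) (code : Cod K)
  (msg : (r : ℕ) → (Fin r → Fin (K 0)) → ℕ → ℕ) (q : ℕ), (∀ j r w i, code j r w i < q) →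
  ∀ y : Y, ms2 T L D P code msg (2 * q) y % (2 * q) = xm T L D P code y ∧
    ms2 T L D P code msg (2 * q) y / (2 * q) = ms1 T L (P 0) (D 0) msg y ∧
    ∀ Q : ℕ, ms1 T L (P 0) (D 0) msg y < Q → ms2 T L D P code msg (2 * q) y < 2 * q * Q

/-- BKA: the colours determine the marker sets. -/
def T_BKA : Prop := ∀ (Y : Type) [MeasurableSpace Y] (T : Y ≃ᵐ Y) (L : ℕ) (D : ℕ → Set Y),
  Mk T L D → ∀ y y', Rc T D y → Rc T D y' → ob T (Bk T L D 0) y = ob T (Bk T L D 0) y' →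
  (∀ s ∈ ob T (Bk T L D 0) y, co T L D (zp T s y) = co T L D (zp T s y')) →
  ∀ k, ob T (Bk T L D k) y = ob T (Bk T L D k) y'

/-- XMA: where `fm` is coded. -/
def T_XMA : Prop := ∀ (Y : Type) [MeasurableSpace Y] (T : Y ≃ᵐ Y) (L : ℕ) (D : ℕ → Set Y)
  (K : ℕ → ℕ) (P : (j : ℕ) → Y → Fin (K j)) (code : Cod K), Mk T L D → ∀ y, Rc T D y →
  ∀ (j : ℕ) (s : ℤ) (g : ℕ), s ∈ ob T (Bk T L D (j + 1)) y → Nx (ob T (Bk T L D j) y) s g →
    s + g ∈ ob T (Bk T L D 0) y ∧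
    xm T L D P code (zp T (s + g) y) = fm T L D P code j (zp T s y)

/-- DJA: the sets `D (j + 1)` are determined. -/
def T_DJA : Prop := ∀ (Y : Type) [MeasurableSpace Y] (T : Y ≃ᵐ Y) (L : ℕ) (D : ℕ → Set Y)
  (K : ℕ → ℕ) (P : (j : ℕ) → Y → Fin (K j)) (code : Cod K), Mk T L D →
  ∀ y y', Rc T D y → Rc T D y' → (∀ k, ob T (Bk T L D k) y = ob T (Bk T L D k) y') →
  (∀ s ∈ ob T (Bk T L D 0) y, xm T L D P code (zp T s y) = xm T L D P code (zp T s y')) →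
  ∀ j, ob T (D (j + 1)) y = ob T (D (j + 1)) y' ∧ ∀ s ∈ ob T (Bk T L D (j + 1)) y,
    fm T L D P code j (zp T s y) = fm T L D P code j (zp T s y')

/-- BIX: a gap of `D (j + 1)` contains many points of `B (j + 1)`. -/
def T_BIX : Prop := ∀ (Y : Type) [MeasurableSpace Y] (T : Y ≃ᵐ Y) (L : ℕ) (D : ℕ → Set Y),
  Mk T L D → ∀ y, Rc T D y → ∀ (j : ℕ) (A : ℤ) (r : ℕ), A ∈ ob T (D (j + 1)) y →
  Nx (ob T (D (j + 1)) y) A r → ∀ i : ℕ, i * gg L (j + 1) < r →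
    ∃ s ∈ ob T (Bk T L D (j + 1)) y, A ≤ s ∧ s < A + r ∧
      bi T (Bk T L D (j + 1)) (D (j + 1)) (zp T s y) = i

/-- PJA: the messages determine the names of all the partitions. -/
def T_PJA : Prop := ∀ (Y : Type) [MeasurableSpace Y] (T : Y ≃ᵐ Y) (L : ℕ) (D : ℕ → Set Y)
  (K : ℕ → ℕ) (P : (j : ℕ) → Y → Fin (K j)) (π : (j : ℕ) → Fin (K (j + 1)) → Fin (K j))
  (code : Cod K) (S : (j r : ℕ) → Set (Fin r → Fin (K (j + 1)))), Mk T L D →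
  (∀ j y, P j y = π j (P (j + 1) y)) →
  (∀ j, ∀ y ∈ D (j + 1), ∀ r : ℕ, 0 < r → zp T (r : ℤ) y ∈ D (j + 1) →
    (fun i : Fin r => P (j + 1) (zp T ((i : ℕ) : ℤ) y)) ∈ S j r) →
  (∀ j r, ∀ w ∈ S j r, ∀ w' ∈ S j r, (∀ i, π j (w i) = π j (w' i)) →
    (∀ i, i * gg L (j + 1) < r → code j r w i = code j r w' i) → w = w') →
  ∀ y y', Rc T D y → Rc T D y' → (∀ k, ob T (Bk T L D k) y = ob T (Bk T L D k) y') →
  (∀ s ∈ ob T (Bk T L D 0) y, xm T L D P code (zp T s y) = xm T L D P code (zp T s y')) →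
  (∀ n : ℤ, P 0 (zp T n y) = P 0 (zp T n y')) →
  ∀ (j : ℕ) (n : ℤ), P j (zp T n y) = P j (zp T n y')

/-- COD: existence of the codes. -/
def T_COD : Prop := ∀ (L q : ℕ) (η : ℝ) (K : ℕ → ℕ) (π : (j : ℕ) → Fin (K (j + 1)) → Fin (K j))
  (S : (j r : ℕ) → Set (Fin r → Fin (K (j + 1)))), 0 < L → 0 ≤ η → Real.exp (η * L) ≤ q →
  (∀ (j r : ℕ) (v : Fin r → Fin (K j)), (({w ∈ S j r | ∀ i, π j (w i) = v i}.ncard : ℕ) : ℝ) ≤
    Real.exp (η / (2 * 16 ^ (j + 1)) * r)) →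
  ∃ code : Cod K, (∀ j r w i, code j r w i < q) ∧ ∀ j r, ∀ w ∈ S j r, ∀ w' ∈ S j r,
    (∀ i, π j (w i) = π j (w' i)) →
    (∀ i, i * gg L (j + 1) < r → code j r w i = code j r w' i) → w = w'

/-- FIB: size of the fibres. -/
def T_FIB : Prop := ∀ (Y : Type) [MeasurableSpace Y] (ν : Measure Y) [IsProbabilityMeasure ν]
  (T : Y ≃ᵐ Y) (K K' : ℕ) (P : Y → Fin K) (P' : Y → Fin K') (π : Fin K' → Fin K) (δ : ℝ)
  (r : ℕ) (v : Fin r → Fin K), Measurable P' → (∀ y, P y = π (P' y)) →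
  (({w : Fin r → Fin K' | (0 < ν.real (cyl T P' w) ∧
      Real.exp (-δ * r) * ν.real (cyl T P fun i => π (w i)) ≤ ν.real (cyl T P' w)) ∧
      ∀ i, π (w i) = v i}.ncard : ℕ) : ℝ) ≤ Real.exp (δ * r)

/-- PSQ: the partitions. -/
def T_PSQ : Prop := ∀ (Y : Type) [MeasurableSpace Y] [StandardBorelSpace Y] (ν : Measure Y)
  [IsProbabilityMeasure ν] (T : Y ≃ᵐ Y) (h' : ℝ) (δ : ℕ → ℝ), ksEnt ν T < (h' : EReal) →
  (∀ j, 0 < δ j) →
  ∃ (K : ℕ → ℕ) (P : (j : ℕ) → Y → Fin (K j)) (π : (j : ℕ) → Fin (K (j + 1)) → Fin (K j)),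
    (∀ j, Measurable (P j)) ∧ (∀ j y, P j y = π j (P (j + 1) y)) ∧
    (∀ y y', (∀ j, P j y = P j y') → y = y') ∧ entP ν T (P 0) < h' ∧
    ∀ j, entP ν T (P (j + 1)) - entP ν T (P j) < δ j

/-- DS2: the sparse marker sets. -/
def T_DS2 : Prop := ∀ (Y : Type) [MeasurableSpace Y] [StandardBorelSpace Y] (ν : Measure Y)
  [IsProbabilityMeasure ν] (T : Y ≃ᵐ Y) (h' : ℝ) (δ : ℕ → ℝ) (K : ℕ → ℕ)
  (P : (j : ℕ) → Y → Fin (K j)) (π : (j : ℕ) → Fin (K (j + 1)) → Fin (K j)), Ergodic T ν →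
  (∀ᵐ y ∂ν, ∀ n : ℕ, 0 < n → T^[n] y ≠ y) → (∀ j, Measurable (P j)) →
  (∀ j y, P j y = π j (P (j + 1) y)) → entP ν T (P 0) < h' →
  (∀ j, entP ν T (P (j + 1)) - entP ν T (P j) < δ j) →
  ∃ n₀ : ℕ, ∀ L, n₀ ≤ L → 2 ≤ L → ∃ D : ℕ → Set Y, (∀ k, MeasurableSet (D k)) ∧
    (∀ k, 0 < ν (D k)) ∧ Mk T L D ∧
    (∀ y ∈ D 0, ∀ r, L ^ 2 ≤ r →
      Real.exp (-h' * r) ≤ ν.real (cyl T (P 0) fun i : Fin r => P 0 (zp T ((i : ℕ) : ℤ) y))) ∧
    ∀ j, ∀ y ∈ D (j + 1), ∀ r : ℕ, 0 < r → zp T (r : ℤ) y ∈ D (j + 1) →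
      0 < ν.real (cyl T (P (j + 1)) fun i : Fin r => P (j + 1) (zp T ((i : ℕ) : ℤ) y)) ∧
      Real.exp (-δ j * r) *
        ν.real (cyl T (P j) fun i : Fin r => P j (zp T ((i : ℕ) : ℤ) y)) ≤
        ν.real (cyl T (P (j + 1)) fun i : Fin r => P (j + 1) (zp T ((i : ℕ) : ℤ) y))

/-- PA2: choice of the parameters. -/
def T_PA2 : Prop := ∀ (d : ℕ) (m : ℕ → ℕ) (θ κ : ℝ), Thr d m θ κ → ∀ (h h' η β : ℝ) (n₀ : ℕ),
  0 ≤ h' → 0 < η → h' + 2 * η < h → 4 < β →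
  (∀ n : ℕ, Real.exp (h * n) ≤ ((FF d m n).card : ℝ)) →
  ∃ (tl : Tl d m) (Q₀ : ℕ → ℕ) (q : ℕ), n₀ ≤ tl.L ∧ 2 ≤ tl.L ∧
    (tl.R : ℝ) + 1 ≤ (β - 4) * tl.L ∧ Real.exp (η * tl.L) ≤ q ∧
    ∀ g, (g = tl.L ∨ g = tl.L + 1) → Real.exp (h' * g) ≤ Q₀ g ∧
      120 * (2 * q * (2 * Q₀ g)) ≤ (HH d m tl.M (g - tl.R)).card

/-- CX2: existence of the data of the coding. -/
def T_CX2 : Prop := ∀ (Y : Type) [MeasurableSpace Y] [StandardBorelSpace Y] (ν : Measure Y)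
  [IsProbabilityMeasure ν] (T : Y ≃ᵐ Y) (d : ℕ) (β θ κ : ℝ) (plus : Bool), Ergodic T ν →
  (∀ᵐ y ∂ν, ∀ n : ℕ, 0 < n → T^[n] y ≠ y) → 4 < β → Thr d (mm β plus) θ κ →
  ksEnt ν T < ((topEnt (PFS d β plus) : ℝ) : EReal) →
  ∃ c : Cx T d (mm β plus), (c.tl.R : ℝ) + 1 ≤ (β - 4) * c.tl.L ∧ (∀ k, 0 < ν (c.D k)) ∧
    ∀ y y', Rc T c.D y → Rc T c.D y' → c.Ag y y' → y = y'

/-- FT2: the theorem. -/
def T_FT2 : Prop := ∀ (d : ℕ) (β : ℝ) (plus : Bool), (2 ≤ d ∧ 5 < β) ∨ (3 ≤ d ∧ 4 < β) →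
  ∀ (Y : Type) [MeasurableSpace Y] [StandardBorelSpace Y] (ν : Measure Y)
    [IsProbabilityMeasure ν] (T : Y ≃ᵐ Y), Ergodic T ν →
    (∀ᵐ y ∂ν, ∀ n : ℕ, 0 < n → T^[n] y ≠ y) →
    ksEnt ν T < ((topEnt (PFS d β plus) : ℝ) : EReal) →
    ∃ μ : Measure (ℤ → Fin d), IsProbabilityMeasure μ ∧ MeasurePreserving sh μ μ ∧
      μ (PFS d β plus)ᶜ = 0 ∧ Isom ν T μ sh

end Pool.Agent.H93.PF
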